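import Pool.Agent.Work.MP_0890ba_co.BD.Num4

/-!
# The numerical choice of the constants for a general rate of the tickets
-/

set_option linter.unusedSectionVars false

namespace DSP

namespace Num5

open Finset BDP BDP.Num4

lemma num5 {κ : ℝ} (hκ0 : 1 / 2 ≤ κ) (hκ1 : κ ≤ 1) {η : ℝ} (hη : 0 < η) : ∃ (J m : ℕ) (ε d : ℝ), 1 ≤ J ∧ 0 < ε ∧ ε ≤ 1 ∧ 0 < d ∧
    ∃ b₁ : ℕ, ∀ a b : ℕ, b₁ ≤ b → (2 + 3 * κ + η) * (b : ℝ) ≤ a → a ≤ 5 * b →
    ∃ (β bq : ℕ → ℕ) (Alo : ℕ → ℝ) (Uhi : ℕ → ℕ → ℝ),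
      Alo (J - 1) ≤ a ∧
      (∀ k, k + 1 < J → Alo k + d * b ≤
        ((wW m (k + 1) : ℝ) - ww m (k + 1)) / wW m (k + 1) * (1 - ε) * Alo (k + 1)) ∧
      (∀ m', 1 ≤ m' → m' ≤ J → (∑ i ∈ range (m' + 1), (bq i : ℝ)) ≤ Uhi m' (m' - 1)) ∧
      (∀ m' k, m' ≤ J → k + 1 < m' →
        ((wW m (k + 1) : ℝ) - ww m (k + 1)) / wW m (k + 1) * Uhi m' (k + 1) + d * b ≤
          Uhi m' k) ∧
      (∀ k < J, 5 * (β k : ℝ) ≤ Alo k) ∧
      (∀ k m', k < m' → m' ≤ J → 3 * (β k : ℝ) + 2 * Uhi m' k ≤ Alo k) ∧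
      (∀ k < J, (bq k : ℝ) + d * b ≤
        (1 - ε) * ((ww m k : ℝ) / wW m k) * κ⁻¹ * β k) ∧
      (∀ s : Finset ℕ, s.card ≤ 2 → b ≤ ∑ i ∈ range J \ s, bq i) ∧
      (∑ i ∈ range (J + 1), (bq i : ℝ)) ≤ 2 * b := by
  obtain ⟨h, hh0, hh1, hhη⟩ : ∃ h : ℝ, 0 < h ∧ h ≤ 1 / 1000 ∧ h ≤ η :=
    ⟨min η (1 / 1000), by positivity, min_le_right _ _, min_le_left _ _⟩
  obtain ⟨m, hm⟩ := exists_nat_gt (100 / h)
  have hm0 : (0 : ℝ) < m := lt_trans (by positivity) hm
  have hm1 : 1 ≤ h / 100 * m := by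
    rw [div_lt_iff₀ hh0] at hm
    nlinarith
  obtain ⟨J, hJ⟩ := exists_nat_gt (200 * (m + 2) / h + 2)
  have hJ2 : (2 : ℝ) < J := lt_of_le_of_lt (by
    have : (0 : ℝ) ≤ 200 * (m + 2) / h := by positivity
    linarith) hJ
  have hJ0 : (0 : ℝ) < J := by linarith
  have hJ2' : 2 ≤ J := by exact_mod_cast hJ2.le
  have hJ1 : 200 * (m + 2) ≤ h * J := by
    have h1 : 200 * ((m : ℝ) + 2) / h < J := by linarith
    rw [div_lt_iff₀ hh0] at h1
    nlinarith
  have hWJ : (0 : ℝ) < m + J := by linarith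
  refine ⟨J, m, h / (100 * J), h / (1000 * J * (m + J)), by omega, by positivity, ?_, by positivity,
    ⌈1000 * ((J : ℝ) + 10) * (m + J) / h⌉₊, ?_⟩
  · rw [div_le_one (by positivity)]
    linarith
  intro a b hb hab _
  obtain ⟨y, hy⟩ : ∃ y : ℝ, y = b / (m + J) := ⟨_, rfl⟩
  have hbR : 1000 * ((J : ℝ) + 10) * (m + J) / h ≤ b := Nat.ceil_le.1 hb
  have hyJ : 1000 * ((J : ℝ) + 10) ≤ h * y := by
    rw [hy]
    rw [div_le_iff₀ hh0] at hbR
    rw [mul_div_assoc', le_div_iff₀ hWJ]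
    linarith
  have hy0 : 0 < y := by
    by_contra hcon
    have h1 : h * y ≤ 0 := mul_nonpos_of_nonneg_of_nonpos hh0.le (not_lt.1 hcon)
    linarith
  have hby : (b : ℝ) = (m + J) * y := by
    rw [hy]
    field_simp
  -- the error
  obtain ⟨D, hD⟩ : ∃ D : ℝ, D = h / (1000 * J * (m + J)) * b := ⟨_, rfl⟩
  have hDJ : J * D = h / 1000 * y := by
    rw [hD, hby]
    field_simp
  have hD0 : 0 < D := by
    by_contra hcon
    have h1 : J * D ≤ 0 := mul_nonpos_of_nonneg_of_nonpos hJ0.le (not_lt.1 hcon)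
    have h2 : 0 < h / 1000 * y := by positivity
    linarith
  have hDn : ∀ n : ℕ, n ≤ J → n * D ≤ h / 1000 * y := fun n hn => by
    rw [← hDJ]
    exact mul_le_mul_of_nonneg_right (by exact_mod_cast hn) hD0.le
  rw [← hD]
  obtain ⟨ε, hε⟩ : ∃ ε : ℝ, ε = h / (100 * J) := ⟨_, rfl⟩
  have hεJ : J * ε = h / 100 := by
    rw [hε]
    field_simp
  have hε0 : 0 < ε := by
    rw [hε]
    positivity
  have hεn : ∀ n : ℕ, n ≤ J → n * ε ≤ h / 100 := fun n hn => by
    rw [← hεJ]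
    exact mul_le_mul_of_nonneg_right (by exact_mod_cast hn) hε0.le
  have hε1 : ε ≤ h / 100 := by
    have := hεn 1 (by omega)
    simpa using this
  rw [← hε]
  obtain ⟨g, hg⟩ : ∃ g : ℝ, g = 2 + 3 * κ + h := ⟨_, rfl⟩
  have hg0 : 0 < g := by
    rw [hg]
    linarith
  have hg5 : g ≤ 6 := by
    rw [hg]
    linarith
  let kk : ℕ → ℕ := fun j => ⌈(1 + h / 100) * (ww m j) * y⌉₊
  let BB : ℕ → ℕ := fun j => ⌈κ * (1 + 5 * h / 100) * (wW m j) * y⌉₊
  let AA : ℕ → ℝ := fun j => (1 - (J - 1 - j : ℕ) * ε) * g * (wW m j) * y - (J - 1 - j : ℕ) * D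
  let UU : ℕ → ℕ → ℝ := fun m' j => (1 + 3 * h / 100) * (wW m j) * y + (m' - 1 - j : ℕ) * D
  have hw0 : ∀ j, (1 : ℝ) ≤ ww m j := fun j => by exact_mod_cast ww_pos m j
  have hW0 : ∀ j, (m : ℝ) ≤ wW m j := fun j => by
    unfold wW
    push_cast
    have : (0 : ℝ) ≤ j := Nat.cast_nonneg j
    linarith
  have hm1' : (1 : ℝ) ≤ m := by
    have : 0 < m := by exact_mod_cast hm0
    exact_mod_cast this
  have hW1 : ∀ j, (1 : ℝ) ≤ wW m j := fun j => hm1'.trans (hW0 j)
  have hWs : ∀ j, (wW m (j + 1) : ℝ) = wW m j + 1 := fun j => by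
    rw [wW_succ']
    push_cast
    ring
  have hWw : ∀ j, ((wW m (j + 1) : ℝ) - ww m (j + 1)) / wW m (j + 1) = wW m j / wW m (j + 1) :=
    fun j => by
      rw [ww_succ, hWs]
      push_cast
      rw [add_sub_cancel_right]
  have hWq1 : ∀ j, (wW m j : ℝ) / wW m (j + 1) ≤ 1 := fun j => by
    rw [div_le_one (lt_of_lt_of_le one_pos (hW1 _)), hWs]
    linarith
  have hWq0 : ∀ j, (0 : ℝ) ≤ (wW m j : ℝ) / wW m (j + 1) := fun j => by positivity
  have hWJ' : (wW m (J - 1) : ℝ) = m + J := by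
    unfold wW
    exact_mod_cast (by omega : m + 1 + (J - 1) = m + J)
  have k1 : ∀ j, (1 + h / 100) * (ww m j) * y ≤ kk j := fun j => Nat.le_ceil _
  have k2 : ∀ j, (kk j : ℝ) ≤ (1 + h / 100) * (ww m j) * y + 1 := fun j =>
    (Nat.ceil_lt_add_one (by positivity)).le
  have b1 : ∀ j, κ * (1 + 5 * h / 100) * (wW m j) * y ≤ BB j := fun j => Nat.le_ceil _
  have b2 : ∀ j, (BB j : ℝ) ≤ κ * (1 + 5 * h / 100) * (wW m j) * y + 1 := fun j =>
    (Nat.ceil_lt_add_one (by positivity)).le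
  have hWy : ∀ j, y ≤ wW m j * y := fun j => le_mul_of_one_le_left hy0.le (hW1 j)
  have hhW : ∀ j, h * y ≤ h * (wW m j * y) := fun j =>
    mul_le_mul_of_nonneg_left (hWy j) hh0.le
  have hA : ∀ j < J, (1 - h / 100) * g * (wW m j * y) - h / 1000 * y ≤ AA j := by
    intro j hj
    have h1 := hεn (J - 1 - j) (by omega)
    have h2 := hDn (J - 1 - j) (by omega)
    have h3 : (1 - h / 100) * g * (wW m j * y) ≤
        (1 - (J - 1 - j : ℕ) * ε) * g * (wW m j) * y := by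
      have h4 : (1 - h / 100) * (g * (wW m j * y)) ≤
          (1 - (J - 1 - j : ℕ) * ε) * (g * (wW m j * y)) :=
        mul_le_mul_of_nonneg_right (by linarith) (by positivity)
      linarith
    show _ ≤ (1 - (J - 1 - j : ℕ) * ε) * g * (wW m j) * y - (J - 1 - j : ℕ) * D
    linarith
  have hU : ∀ m' j, m' ≤ J → UU m' j ≤ (1 + 3 * h / 100) * (wW m j * y) + h / 1000 * y := by
    intro m' j hm'
    have h2 := hDn (m' - 1 - j) (by omega)
    show (1 + 3 * h / 100) * (wW m j) * y + (m' - 1 - j : ℕ) * D ≤ _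
    linarith
  have hsum : ∀ m', m' ≤ J → (∑ i ∈ range (m' + 1), (kk i : ℝ)) ≤
      (1 + h / 100) * (wW m m') * y + (J + 1) := by
    intro m' hm'
    refine (sum_le_sum fun i _ => k2 i).trans ?_
    rw [sum_add_distrib, ← sum_mul, ← mul_sum, ← Nat.cast_sum, sum_ww]
    simp only [sum_const, card_range, nsmul_eq_mul, mul_one]
    have : ((m' + 1 : ℕ) : ℝ) ≤ J + 1 := by exact_mod_cast (by omega : m' + 1 ≤ J + 1)
    linarith
  refine ⟨BB, kk, AA, UU, ?_, ?_, ?_, ?_, ?_, ?_, ?_, ?_, ?_⟩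
  · -- the last level
    show (1 - ((J - 1 - (J - 1) : ℕ) : ℝ) * ε) * g * (wW m (J - 1)) * y -
      ((J - 1 - (J - 1) : ℕ) : ℝ) * D ≤ a
    rw [Nat.sub_self, Nat.cast_zero, zero_mul, zero_mul, sub_zero, sub_zero, one_mul, hWJ']
    have h1 : g * (m + J) * y = g * b := by
      rw [hby]
      ring
    rw [h1]
    refine le_trans (mul_le_mul_of_nonneg_right ?_ (Nat.cast_nonneg _)) hab
    rw [hg]
    linarith
  · -- the recursion of the lists
    intro k hk
    rw [hWw]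
    show (1 - ((J - 1 - k : ℕ) : ℝ) * ε) * g * (wW m k) * y - ((J - 1 - k : ℕ) : ℝ) * D + D ≤
      wW m k / wW m (k + 1) * (1 - ε) * ((1 - ((J - 1 - (k + 1) : ℕ) : ℝ) * ε) * g *
        (wW m (k + 1)) * y - ((J - 1 - (k + 1) : ℕ) : ℝ) * D)
    obtain ⟨n, hn⟩ : ∃ n : ℕ, J - 1 - k = n + 1 := ⟨J - 1 - k - 1, by omega⟩
    have hn' : J - 1 - (k + 1) = n := by omega
    rw [hn, hn']
    push_cast
    have hp : (0 : ℝ) < wW m (k + 1) := lt_of_lt_of_le one_pos (hW1 _)
    have e1 : (wW m k : ℝ) / wW m (k + 1) * (1 - ε) * ((1 - n * ε) * g * (wW m (k + 1)) * y -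
        n * D) = (1 - ε) * (1 - n * ε) * (g * wW m k * y) -
          (wW m k / wW m (k + 1)) * (1 - ε) * (n * D) := by
      field_simp
    rw [e1]
    have h1 : (1 - (n + 1) * ε) * (g * wW m k * y) ≤
        (1 - ε) * (1 - n * ε) * (g * wW m k * y) := by
      refine mul_le_mul_of_nonneg_right ?_ (by positivity)
      have : (0 : ℝ) ≤ n * (ε * ε) := by positivity
      nlinarith
    have h2 : (wW m k / wW m (k + 1) : ℝ) * (1 - ε) * (n * D) ≤ n * D := by
      refine mul_le_of_le_one_left (by positivity) ?_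
      exact mul_le_one₀ (hWq1 k) (by linarith) (by linarith)
    linarith
  · -- the quotas
    intro m' h1 h2
    show _ ≤ (1 + 3 * h / 100) * (wW m (m' - 1)) * y + ((m' - 1 - (m' - 1) : ℕ) : ℝ) * D
    rw [Nat.sub_self, Nat.cast_zero, zero_mul, add_zero]
    refine (hsum m' h2).trans ?_
    have h3 : (wW m m' : ℝ) ≤ (1 + h / 100) * wW m (m' - 1) := by
      have h4 := hWs (m' - 1)
      rw [Nat.sub_add_cancel h1] at h4
      rw [h4]
      have h5 : h / 100 * m ≤ h / 100 * wW m (m' - 1) :=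
        mul_le_mul_of_nonneg_left (hW0 _) (by positivity)
      linarith
    have h4 : (1 + h / 100) * (wW m m') * y ≤
        ((1 + h / 100) * (1 + h / 100)) * (wW m (m' - 1) * y) := by
      have h5 := mul_le_mul_of_nonneg_left (mul_le_mul_of_nonneg_right h3 hy0.le)
        (show (0 : ℝ) ≤ 1 + h / 100 by positivity)
      linarith
    have h5 := hhW (m' - 1)
    have h6 : (1 + h / 100) * (1 + h / 100) ≤ 1 + 21 * h / 1000 := by nlinarith
    have h7 := mul_le_mul_of_nonneg_right h6 (hy0.le.trans (hWy (m' - 1)))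
    linarith
  · -- the recursion of the adversaries
    intro m' k hm' hk
    rw [hWw]
    show (wW m k : ℝ) / wW m (k + 1) * ((1 + 3 * h / 100) * (wW m (k + 1)) * y +
      ((m' - 1 - (k + 1) : ℕ) : ℝ) * D) + D ≤
        (1 + 3 * h / 100) * (wW m k) * y + ((m' - 1 - k : ℕ) : ℝ) * D
    obtain ⟨n, hn⟩ : ∃ n : ℕ, m' - 1 - k = n + 1 := ⟨m' - 1 - k - 1, by omega⟩
    have hn' : m' - 1 - (k + 1) = n := by omega
    rw [hn, hn']
    push_cast
    have hp : (0 : ℝ) < wW m (k + 1) := lt_of_lt_of_le one_pos (hW1 _)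
    have e1 : (wW m k : ℝ) / wW m (k + 1) * ((1 + 3 * h / 100) * (wW m (k + 1)) * y + n * D) =
        (1 + 3 * h / 100) * (wW m k) * y + (wW m k : ℝ) / wW m (k + 1) * (n * D) := by
      field_simp
    rw [e1]
    have h2 : (wW m k / wW m (k + 1) : ℝ) * (n * D) ≤ n * D :=
      mul_le_of_le_one_left (by positivity) (hWq1 k)
    linarith
  · -- lists without adversaries
    intro k hk
    refine le_trans ?_ (hA k hk)
    have h1 := b2 k
    have h2 := hhW k
    have h3 : 5 * (κ * (1 + 5 * h / 100)) + h / 100 ≤ (1 - h / 100) * g := by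
      rw [hg]
      nlinarith
    have h4 := mul_le_mul_of_nonneg_right h3 (hy0.le.trans (hWy k))
    linarith
  · -- lists with adversaries
    intro k m' hk hm'
    refine le_trans ?_ (hA k (by omega))
    have h1 := b2 k
    have h2 := hhW k
    have h0 := hU m' k hm'
    have h3 : 3 * (κ * (1 + 5 * h / 100)) + 2 * (1 + 3 * h / 100) + h / 100 ≤
        (1 - h / 100) * g := by
      rw [hg]
      nlinarith
    have h4 := mul_le_mul_of_nonneg_right h3 (hy0.le.trans (hWy k))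
    linarith
  · -- the colours of a level
    intro k hk
    have hWp : (0 : ℝ) < wW m k := lt_of_lt_of_le one_pos (hW1 _)
    have h1 : (1 - ε) * ((ww m k : ℝ) / wW m k) * κ⁻¹ *
        (κ * (1 + 5 * h / 100) * (wW m k) * y) ≤
        (1 - ε) * ((ww m k : ℝ) / wW m k) * κ⁻¹ * BB k := by
      refine mul_le_mul_of_nonneg_left (b1 k) ?_
      have : (0 : ℝ) ≤ 1 - ε := by linarith
      positivity
    refine le_trans ?_ h1
    have h2 : (1 - ε) * ((ww m k : ℝ) / wW m k) * κ⁻¹ *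
        (κ * (1 + 5 * h / 100) * (wW m k) * y) =
        ((1 - ε) * (1 + 5 * h / 100)) * (ww m k * y) := by
      field_simp
    rw [h2]
    have h3 := k2 k
    have h4 : y ≤ ww m k * y := le_mul_of_one_le_left hy0.le (hw0 k)
    have h5 : 1 + 3 * h / 100 ≤ (1 - ε) * (1 + 5 * h / 100) := by nlinarith
    have h6 := mul_le_mul_of_nonneg_right h5 (hy0.le.trans h4)
    refine le_trans ?_ h6
    have h7 : h * y ≤ h * (ww m k * y) := mul_le_mul_of_nonneg_left h4 hh0.le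
    have h8 : D ≤ h / 1000 * y := by
      have := hDn 1 (by omega)
      simpa using this
    linarith
  · -- all levels but two
    intro s hs
    have h1 : (wW m (J - 1) : ℝ) ≤ (∑ i ∈ range J \ s, ww m i : ℕ) + (m + 2) := by
      have h2 : ∑ i ∈ range J, ww m i ≤ ∑ i ∈ range J \ s, ww m i + ∑ i ∈ s, ww m i := by
        rw [← sum_union sdiff_disjoint]
        refine sum_le_sum_of_subset fun i hi => ?_
        by_cases his : i ∈ s
        · exact mem_union_right _ his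
        · exact mem_union_left _ (mem_sdiff.2 ⟨hi, his⟩)
      have h3 := sum_ww_le m hs
      have h4 := sum_ww m (J - 1)
      rw [Nat.sub_add_cancel (by omega : 1 ≤ J)] at h4
      rw [h4] at h2
      exact_mod_cast h2.trans (Nat.add_le_add_left h3 _)
    have h2 : (1 + h / 100) * ((∑ i ∈ range J \ s, ww m i : ℕ) : ℝ) * y ≤
        ((∑ i ∈ range J \ s, kk i : ℕ) : ℝ) := by
      push_cast
      rw [mul_sum, sum_mul]
      exact sum_le_sum fun i _ => k1 i
    have h3 : (b : ℝ) ≤ ((∑ i ∈ range J \ s, kk i : ℕ) : ℝ) := by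
      refine le_trans ?_ h2
      rw [hby]
      refine mul_le_mul_of_nonneg_right ?_ hy0.le
      rw [hWJ'] at h1
      have h4 : (0 : ℝ) ≤ h / 100 := by positivity
      nlinarith
    exact_mod_cast h3
  · -- all quotas
    refine (hsum J le_rfl).trans ?_
    have h1 : (wW m J : ℝ) = m + J + 1 := by
      unfold wW
      push_cast
      ring
    rw [h1, hby]
    have h2 : y ≤ (m + J) * y := le_mul_of_one_le_left hy0.le (by linarith)
    have h3 : (1 + h / 100) * (m + J + 1) ≤ (1 + h / 50) * (m + J) + 1 := by nlinarith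
    have h4 := mul_le_mul_of_nonneg_right h3 hy0.le
    have h5 : 3 * y ≤ (m + J) * y := mul_le_mul_of_nonneg_right (by linarith) hy0.le
    have h6 : h * y ≤ 1 / 1000 * y := mul_le_mul_of_nonneg_right hh1 hy0.le
    have h7 : h / 50 * ((m + J) * y) ≤ 1 / 50000 * ((m + J) * y) :=
      mul_le_mul_of_nonneg_right (by linarith) (by positivity)
    nlinarith

end Num5

end DSP
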