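import Pool.Agent.Work.MP_0890ba_co.DS.Pr.Core
import Pool.Agent.Work.MP_0890ba_co.DS.LawEx
import Pool.Agent.Work.MP_0890ba_co.BD.Law
import Pool.Agent.Work.MP_0890ba_co.BD.Tail
import Pool.Agent.Work.MP_0890ba_co.BD.Peel
import Pool.Agent.Work.MP_0890ba_co.DS.Pr.Num5
import Pool.Agent.Work.MP_0890ba_co.BD.Chsf

/-!
# The assembly: constants and the final choosability statement
-/

set_option linter.unusedSectionVars false

namespace DSP

namespace Proc

open Finset Classical BDP BDP.Hub BDP.Ord BDP.Num4 Num5 Pool.Agent.Work.MP_0890ba_co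

/-- The parameters of a level, `D` and `R` belong to the awareness graph with the same index, the
others to the level before. -/
structure Par where
  D : ℕ
  R : ℕ
  Rp : ℕ
  n : ℕ
  ρ : ℕ
  rr : ℕ
  rad : ℕ
  r : ℕ

/-- The next parameters. -/
def nextPar (J : ℕ) (cf : ℕ → ℕ) (Sf ρf : ℕ → ℕ → ℕ) (p : Par) : Par :=
  let D' := 8 * (J + 1) + 4 * (J + 1) * (1 + 64 * p.R * (p.D + 1) ^ p.R)
  let rr' := cf p.n
  let n' := max p.n (Sf D' rr')
  let ρ' := ρf D' rr'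
  let rad' := 2 * n' + ρ'
  let r' := p.r + p.rad + rad'
  ⟨D', (r' + 2 * rad' + 1 + n') + p.R + p.Rp, p.R, n', ρ', rr', rad', r'⟩

/-- The parameters. -/
def par (J : ℕ) (cf : ℕ → ℕ) (Sf ρf : ℕ → ℕ → ℕ) : ℕ → Par
  | 0 => ⟨8 * (J + 1), 1, 1, 0, 0, 0, 0, 0⟩
  | i + 1 => nextPar J cf Sf ρf (par J cf Sf ρf i)

section par

variable (J : ℕ) (cf : ℕ → ℕ) (Sf ρf : ℕ → ℕ → ℕ)

lemma par_R_mono : Monotone fun i => (par J cf Sf ρf i).R := by
  refine monotone_nat_of_le_succ fun i => ?_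
  show (par J cf Sf ρf i).R ≤ (nextPar J cf Sf ρf (par J cf Sf ρf i)).R
  unfold nextPar
  dsimp only
  omega

lemma par_n_mono : Monotone fun i => (par J cf Sf ρf i).n := by
  refine monotone_nat_of_le_succ fun i => ?_
  exact le_max_left _ _

lemma par_Rp (i : ℕ) : (par J cf Sf ρf i).Rp = (par J cf Sf ρf (i - 1)).R := by
  cases i with
  | zero => rfl
  | succ i => rfl

lemma par_rad (i : ℕ) : (par J cf Sf ρf (i + 1)).rad =
    2 * (par J cf Sf ρf (i + 1)).n + (par J cf Sf ρf (i + 1)).ρ := rfl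

lemma par_r (i : ℕ) : (par J cf Sf ρf (i + 1)).r =
    (par J cf Sf ρf i).r + (par J cf Sf ρf i).rad + (par J cf Sf ρf (i + 1)).rad := rfl

lemma par_claim (i : ℕ) : ((par J cf Sf ρf (i + 1)).r + 2 * (par J cf Sf ρf (i + 1)).rad + 1 +
    (par J cf Sf ρf (i + 1)).n) + (par J cf Sf ρf (i + 1 - 1)).R +
    (par J cf Sf ρf (i + 1 - 2)).R ≤ (par J cf Sf ρf (i + 1)).R := by
  have h1 : i + 1 - 2 = i - 1 := by omega
  have h2 : i + 1 - 1 = i := by omega
  rw [h1, h2, ← par_Rp J cf Sf ρf i]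
  exact le_refl _

lemma par_D (i : ℕ) : 8 * (J + 1) + 4 * (J + 1) * (1 + 64 * (par J cf Sf ρf i).R *
    ((par J cf Sf ρf i).D + 1) ^ (par J cf Sf ρf i).R) ≤ (par J cf Sf ρf (i + 1)).D := le_refl _

end par

/-- The tail bound for a level. -/
lemma tail_of {q d : ℝ} (hq : 0 < q) (hd : 0 < d) : ∃ b0 : ℕ, ∀ {V Z : Type} [Fintype V]
    [Nonempty V] [Fintype Z] (P : Data V Z) (k b : ℕ), Nonempty (P.Sd k) → b0 ≤ b →
    P.Tail k q (d * b) (5 * b) := by
  obtain ⟨b0, h⟩ := Tail.tail_lower 5 hq hd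
  refine ⟨b0, fun {V Z} _ _ _ P k b hne hb Sg H s hSg hs => ?_⟩
  exact h (I := V) (Om := fun _ => P.Sd k) Sg H b s hb hSg hs

/-- The law of a cluster, with the trivial law if the lists are too small. -/
theorem law_exists {V : Type} {G : SimpleGraph V} {rho : ℝ} {nT : ℕ → ℕ}
    (hG : LawEx rho nT G) {Z : Type} [Fintype Z] (n β : ℕ) (K : Set V)
    (Zs : Finset V) (A : V → Finset Z) :
    ∃ S : Fin (nT n) → V → Finset Z, (∀ ω, ∀ v ∈ K, S ω v ⊆ A v) ∧
      (∀ ω, ∀ u ∈ K, ∀ v ∈ K, G.Adj u v → Disjoint (S ω u) (S ω v)) ∧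
      (Zs.card ≤ 2 → (∀ v ∈ K, v ∉ Zs) →
        (∀ u ∈ Zs, ∀ v ∈ Zs, (res G Kᶜ).Reachable u v) → K.ncard ≤ n →
        (∀ v ∈ K, 5 * β ≤ (A v).card + hn G Zs v * β) →
        ∀ v ∈ K, rho * (nT n : ℝ) * (β : ℝ) ≤ ((∑ ω, (S ω v).card : ℕ) : ℝ)) := by
  by_cases hgood : Zs.card ≤ 2 ∧ (∀ v ∈ K, v ∉ Zs) ∧
      (∀ u ∈ Zs, ∀ v ∈ Zs, (res G Kᶜ).Reachable u v) ∧ K.ncard ≤ n ∧
      ∀ v ∈ K, 5 * β ≤ (A v).card + hn G Zs v * β
  · obtain ⟨h1, h2, h3, h4, h5⟩ := hgood
    -- an injection of the colours into the integers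
    obtain ⟨f⟩ : Nonempty (Z ↪ ℤ) := by
      refine ⟨⟨fun z => ((Fintype.equivFin Z z : ℕ) : ℤ), fun x y hxy => ?_⟩⟩
      have h5 : ((Fintype.equivFin Z x : ℕ) : ℤ) = ((Fintype.equivFin Z y : ℕ) : ℤ) := hxy
      have h6 : (Fintype.equivFin Z x : ℕ) = (Fintype.equivFin Z y : ℕ) := by exact_mod_cast h5
      exact (Fintype.equivFin Z).injective (Fin.ext h6)
    obtain ⟨S, hS1, hS2⟩ := hG n β K Zs (fun v => (A v).map f) h1 h2 h3 h4
      (fun v hv => by rw [card_map]; exact h5 v hv)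
    refine ⟨fun ω v => univ.filter fun z => f z ∈ S ω v, fun ω v hv z hz => ?_,
      fun ω u hu v hv huv => ?_, fun _ _ _ _ _ v hv => ?_⟩
    · have h7 := (hS1 ω).1 v hv (mem_filter.1 hz).2
      obtain ⟨z', hz', hzz⟩ := mem_map.1 h7
      rwa [← f.injective hzz]
    · rw [disjoint_left]
      intro z hz hz'
      exact disjoint_left.1 ((hS1 ω).2 u hu v hv huv) (mem_filter.1 hz).2 (mem_filter.1 hz').2
    · refine (hS2 v hv).trans (Nat.cast_le.2 (sum_le_sum fun ω _ => ?_))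
      have h8 : S ω v ⊆ (univ.filter fun z => f z ∈ S ω v).map f := by
        intro c hc
        obtain ⟨z, -, rfl⟩ := mem_map.1 ((hS1 ω).1 v hv hc)
        exact mem_map.2 ⟨z, mem_filter.2 ⟨mem_univ _, hc⟩, rfl⟩
      refine (card_le_card h8).trans ?_
      rw [card_map]
  · refine ⟨fun _ _ => ∅, fun _ _ _ => empty_subset _, fun _ _ _ _ _ _ =>
      disjoint_empty_left _, fun h1 h2 h3 h4 h5 => absurd ⟨h1, h2, h3, h4, h5⟩ hgood⟩

/-- Choosability of graphs without Kuratowski minors whose pieces have tickets of rate `rho`, for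
`a ≤ 5 b`. -/
theorem full_le {rho : ℝ} (hr1 : 1 ≤ rho) (hr2 : rho ≤ 2) (nT : ℕ → ℕ) (hnT : ∀ n, 0 < nT n)
    {η : ℝ} (hη : 0 < η) : ∃ b₀ : ℕ, ∀ (V : Type) [Finite V] (G : SimpleGraph V),
    ¬HasK5Minor G → ¬HasK3Minor 3 G → LawEx rho nT G → ∀ a b : ℕ, b₀ ≤ b →
    (2 + 3 * rho⁻¹ + η) * (b : ℝ) ≤ a → a ≤ 5 * b → Choosable G a b := by
  have hr0 : 0 < rho := by linarith
  obtain ⟨J, m, ε, d, hJ, hε0, hε1, hd, b₁, hnum⟩ := num5 (κ := rho⁻¹)
    (by rw [one_div]; exact inv_anti₀ hr0 hr2) (inv_le_one_of_one_le₀ hr1) hη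
  rw [inv_inv] at hnum
  -- the schemes
  have hsc : ∀ Δ rr : ℕ, ∃ S ρ : ℕ, ∀ (V : Type) [Fintype V] [DecidableEq V] (G : SimpleGraph V),
      (∀ v, (G.neighborSet v).ncard ≤ Δ) → ¬HasK3Minor 3 G →
      ∃ X, IsScheme G (Alph (rr + 1)) Set.univ (4 / ((rr + 1 : ℕ) : ℝ)) S ρ X :=
    fun Δ rr => exists_scheme 3 Δ (Nat.succ_pos rr)
  choose Sf ρf hsc using hsc
  let cf : ℕ → ℕ := fun n => ⌈4 * ((n : ℝ) + 1) / ε⌉₊
  have hcf : ∀ n : ℕ, 4 / ((cf n + 1 : ℕ) : ℝ) ≤ ε / ((n : ℝ) + 1) := by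
    intro n
    have h1 : 4 * ((n : ℝ) + 1) / ε ≤ (cf n : ℝ) := Nat.le_ceil _
    have h2 : (0 : ℝ) < ((cf n + 1 : ℕ) : ℝ) := by positivity
    have h3 : (0 : ℝ) < (n : ℝ) + 1 := by positivity
    rw [div_le_div_iff₀ h2 h3]
    rw [div_le_iff₀ hε0] at h1
    push_cast
    nlinarith
  let p : ℕ → Par := par J cf Sf ρf
  have hpD : ∀ i, (p (i + 1)).D = 8 * (J + 1) + 4 * (J + 1) * (1 + 64 * (p i).R *
    ((p i).D + 1) ^ (p i).R) := fun i => rfl
  let δ : ℕ → ℝ := fun k => 4 / (((p (k + 1)).rr + 1 : ℕ) : ℝ)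
  have hδ : ∀ k, δ k ≤ ε / (((p k).n : ℝ) + 1) := fun k => hcf _
  have hδ1 : ∀ k, δ k ≤ ε := by
    intro k
    refine (hδ k).trans ?_
    rw [div_le_iff₀ (by positivity)]
    have h1 : (0 : ℝ) ≤ ((p k).n : ℝ) := by positivity
    nlinarith
  -- the bound for the balls
  let Bm : ℕ := ∑ k ∈ range J, ((p (k + 1)).D + 1) ^ (p (k + 1)).rad
  let Q : ℝ := (2 : ℝ) ^ Bm * J + 2 * (J + 1) + 1
  have hQ : 0 < Q := by positivity
  have hpow : (0 : ℝ) < ((Bm : ℝ) + 1) ^ Bm := by positivity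
  let q : ℝ := 1 / (2 * Q * ((Bm : ℝ) + 1) ^ Bm)
  have hq : 0 < q := by positivity
  obtain ⟨b₂, htail⟩ := tail_of hq hd
  refine ⟨max b₁ b₂, ?_⟩
  intro V _ G g5 g3 hlawG a b hb hab hab5
  have hfin : Fintype V := Fintype.ofFinite V
  rcases isEmpty_or_nonempty V with hV | hV
  · exact fun L _ => ⟨fun _ => ∅, fun v => (hV.false v).elim, fun v => (hV.false v).elim⟩
  intro L hL
  -- the colours
  let U : Finset ℤ := univ.biUnion L
  have hU : ∀ v, ∀ c ∈ L v, c ∈ U := fun v c hc => mem_biUnion.2 ⟨v, mem_univ _, hc⟩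
  let Lv : V → Finset U := fun v => (L v).subtype (· ∈ U)
  have hLv : ∀ v, (Lv v).card = a := by
    intro v
    rw [← hL v]
    change ((L v).subtype (· ∈ U)).card = _
    rw [card_subtype, filter_true_of_mem (hU v)]
  obtain ⟨β, bq, Alo, Uhi, n1, n2, n3, n4, n5, n6, n7, n8, n9⟩ :=
    hnum a b ((le_max_left _ _).trans hb) hab hab5
  -- the order
  let R : ℕ → ℕ := fun i => (p i).R
  have hRm : Monotone R := par_R_mono J cf Sf ρf
  obtain ⟨e, he, -, hdeg⟩ := exists_order g5 g3 R J (fun i => (p i).D) (le_refl _)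
    (fun j _ => (hpD j).ge)
  -- the schemes of the levels
  have hX : ∀ k, ∃ X : (V → Alph ((p (k + 1)).rr + 1)) → Set V, k < J →
      IsScheme (Lam G e R (k + 1)) (Alph ((p (k + 1)).rr + 1)) Set.univ (δ k) (p (k + 1)).n
        (p (k + 1)).ρ X := by
    intro k
    by_cases hk : k < J
    · obtain ⟨X, hX⟩ := hsc (p (k + 1)).D (p (k + 1)).rr V (Lam G e R (k + 1))
        (hdeg (k + 1) (by omega)) (fun h => g3 (Far.hasK3Minor_mono (lam_le (k + 1)) h))
      exact ⟨X, fun _ => hX.mono le_rfl (le_max_right _ _) le_rfl⟩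
    · exact ⟨fun _ => ∅, fun h => absurd h hk⟩
  choose X hX using hX
  -- the laws
  have hlaw := fun (k : ℕ) (K : Set V) (Zs : Finset V) (A : V → Finset U) =>
    law_exists hlawG (p (k + 1)).n (β k) K Zs A
  choose law law1 law2 law3 using hlaw
  let P : Data V U :=
    { G := G, e := e, J := J, L := fun k => Lam G e R (k + 1), rr := fun k => (p (k + 1)).rr + 1,
      n := fun k => (p (k + 1)).n, ρ := fun k => (p (k + 1)).ρ, w := ww m, W := wW m,
      X := X, l := Lv, b := bq, nT := nT, rho := rho, law := law }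
  have hadv : ∀ (k : ℕ) (K : Set V), ((P.adv k K : Finset V) : Set V) = Ord.adv G e R (k + 1) K := by
    intro k K
    ext z
    rw [mem_coe]
    unfold Data.adv
    rw [mem_filter]
    exact ⟨fun h => h.2, fun h => ⟨mem_univ _, h⟩⟩
  have hadv' : ∀ (k : ℕ) (K : Set V) (z : V), z ∈ P.adv k K ↔ z ∈ Ord.adv G e R (k + 1) K := by
    intro k K z
    rw [← hadv, mem_coe]
  have good : P.Good δ β (fun k => (p (k + 1)).r) := by
    refine ⟨fun k => lam_le _, fun i j hij => lam_mono hRm (by omega),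
      fun i j hij => par_n_mono J cf Sf ρf (by omega), hX, fun k => Nat.succ_pos _, hnT, hr0, ?_, ?_, ?_,
      law1, law2, law3, ?_, ?_, ?_, ?_⟩
    · intro k
      show 0 < ww m k
      unfold ww
      split_ifs <;> omega
    · show ww m 0 = wW m 0
      unfold ww wW
      simp
    · intro k
      show wW m (k + 1) = wW m k + ww m (k + 1)
      unfold ww wW
      simp
      omega
    · -- clusters
      intro k hk K hK hKn hKD
      have hcl := Ord.cluster hRm (par_claim J cf Sf ρf k) hK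
        (le_trans (show K.ncard ≤ (p (k + 1)).n from hKn) (Nat.le_add_left _ _)) hKD
      refine ⟨?_, ?_, ?_, ?_⟩
      · rw [← Set.ncard_coe_finset, hadv]
        exact hcl.1
      · intro z hz w hw
        exact hcl.2.1 z ((hadv' k K z).1 hz) w hw
      · intro z hz z' hz'
        exact hcl.2.2 z ((hadv' k K z).1 hz) z' ((hadv' k K z').1 hz')
      · intro z hz w hw hzw
        exact Ord.adv_not hRm (par_claim J cf Sf ρf k) hK
          (le_trans (show K.ncard ≤ (p (k + 1)).n from hKn) (Nat.le_add_left _ _)) hKD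
          ((hadv' k K z).1 hz) hw hzw
    · -- freshness
      intro k hk z w hzw hlt hn x hx
      exact Ord.ball_after hRm (par_claim J cf Sf ρf k) hzw hlt hn
        (k := (p (k + 1)).r + 2 * (p (k + 1)).rad) (Nat.le_add_right _ _) hx
    · intro k
      show 2 * (p (k + 1)).n + (p (k + 1)).ρ ≤ (p (k + 1)).r
      have h1 : (p (k + 1)).r = (p k).r + (p k).rad + (2 * (p (k + 1)).n + (p (k + 1)).ρ) := rfl
      omega
    · intro k
      show (p (k + 1)).r + (2 * (p (k + 1)).n + (p (k + 1)).ρ) +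
        (2 * (p (k + 1 + 1)).n + (p (k + 1 + 1)).ρ) ≤ (p (k + 1 + 1)).r
      exact le_refl _
  obtain ⟨S, hS, hdis⟩ := Data.core (P := P) good he (bb := b) (B := Bm) (ε := ε) (err := d * b)
    (q := q) (Cc := 5 * b) (a := a) (Alo := Alo) (Uhi := Uhi)
    (fun w => unaware_two (R := R) (le_refl 1) w)
    (by
      intro w s hs
      have h1 : (s.image (· + 1)).card = s.card :=
        card_image_of_injective _ (fun x y h => Nat.succ_injective h)
      have h2 : (s.image (· + 1)).card ≤ 2 := by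
        refine dr_two (G := G) (e := e) (R := R) hRm (le_refl 1) w _ ?_
        intro j hj
        obtain ⟨k, hk, rfl⟩ := mem_image.1 hj
        exact ⟨by omega, hs k hk⟩
      rwa [h1] at h2)
    hε0.le hε1 (by positivity) hq.le
    (by
      intro k hk v
      refine (Col.card_near (hdeg (k + 1) (show k + 1 ≤ J from hk)) v (p (k + 1)).rad).trans ?_
      exact single_le_sum (f := fun k => ((p (k + 1)).D + 1) ^ (p (k + 1)).rad)
        (fun _ _ => Nat.zero_le _) (mem_range.2 hk))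
    (by
      show ((2 : ℝ) ^ Bm * J * q + 2 * (J + 1) * q + q) * ((Bm : ℝ) + 1) ^ Bm < 1
      have h1 : ((2 : ℝ) ^ Bm * J * q + 2 * (J + 1) * q + q) = Q * q := by
        show _ = ((2 : ℝ) ^ Bm * J + 2 * (J + 1) + 1) * q
        ring
      rw [h1]
      have h2 : Q * q * ((Bm : ℝ) + 1) ^ Bm = 1 / 2 := by
        show Q * (1 / (2 * Q * ((Bm : ℝ) + 1) ^ Bm)) * ((Bm : ℝ) + 1) ^ Bm = 1 / 2
        field_simp
      rw [h2]
      norm_num)
    (by
      intro k hk
      refine htail P k b ?_ ((le_max_right _ _).trans hb)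
      have h2 : 0 < wW m k := by
        unfold wW
        omega
      have h3 : 0 < nT (P.n k) := hnT _
      have : Nonempty (Fin (P.rr k)) := ⟨⟨0, Nat.succ_pos _⟩⟩
      have : Nonempty (Fin (P.W k)) := ⟨⟨0, h2⟩⟩
      have : Nonempty (Fin (nT (P.n k))) := ⟨⟨0, h3⟩⟩
      infer_instance)
    (by
      intro v
      show ((Lv v).card : ℝ) ≤ 5 * b
      rw [hLv v]
      exact_mod_cast hab5)
    (by
      show (∑ k ∈ range (J + 1), (bq k : ℝ)) ≤ 5 * b
      have h1 : (0 : ℝ) ≤ b := by positivity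
      linarith)
    (fun k _ => hδ1 k)
    (by
      intro k hk j hj
      have h1 : ((p (j + 1)).n : ℝ) ≤ ((p k).n : ℝ) := by
        exact_mod_cast par_n_mono J cf Sf ρf (show j + 1 ≤ k by omega)
      have h2 : (0 : ℝ) < ((p k).n : ℝ) + 1 := by positivity
      have h3 := hδ k
      have h4 : (0 : ℝ) ≤ δ k := by positivity
      calc ((p (j + 1)).n : ℝ) * δ k ≤ (((p k).n : ℝ) + 1) * δ k :=
            mul_le_mul_of_nonneg_right (by linarith) h4
        _ ≤ (((p k).n : ℝ) + 1) * (ε / (((p k).n : ℝ) + 1)) :=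
            mul_le_mul_of_nonneg_left h3 h2.le
        _ = ε := by field_simp)
    (by
      intro v
      show (a : ℝ) ≤ ((Lv v).card : ℝ)
      rw [hLv v])
    n1 n2 n3 n4 n5 n6 n7 n8
  -- back to integers
  have hT : ∀ v, ∃ t ⊆ S v, t.card = b := fun v => exists_subset_card_eq (hS v).2
  choose t ht1 ht2 using hT
  refine ⟨fun v => (t v).image Subtype.val, fun v => ⟨?_, ?_⟩, ?_⟩
  · intro c hc
    obtain ⟨c', hc', rfl⟩ := mem_image.1 hc
    exact mem_subtype.1 ((hS v).1 (ht1 v hc'))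
  · rw [card_image_of_injective _ Subtype.val_injective, ht2]
  · intro u v huv
    rw [disjoint_left]
    intro c hcu hcv
    obtain ⟨c1, hc1, rfl⟩ := mem_image.1 hcu
    obtain ⟨c2, hc2, h12⟩ := mem_image.1 hcv
    have h13 : c2 = c1 := Subtype.ext h12
    subst h13
    exact disjoint_left.1 (hdis u v huv) (ht1 u hc1) (ht1 v hc2)

/-- Choosability of graphs without Kuratowski minors whose pieces have tickets of rate `rho`. -/
theorem full {rho : ℝ} (hr1 : 1 ≤ rho) (hr2 : rho ≤ 2) (nT : ℕ → ℕ) (hnT : ∀ n, 0 < nT n)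
    {η : ℝ} (hη : 0 < η) : ∃ b₀ : ℕ, ∀ (V : Type) [Finite V] (G : SimpleGraph V),
    ¬HasK5Minor G → ¬HasK3Minor 3 G → LawEx rho nT G → ∀ a b : ℕ, b₀ ≤ b →
    (2 + 3 * rho⁻¹ + η) * (b : ℝ) ≤ a → Choosable G a b := by
  obtain ⟨b₀, h⟩ := full_le hr1 hr2 nT hnT hη
  refine ⟨b₀, fun V _ G g5 g3 hlawG a b hb hab => ?_⟩
  rcases Nat.le_total a (5 * b) with h1 | h1
  · exact h V G g5 g3 hlawG a b hb hab h1
  · exact choosable_mono (choosable_five g5 g3 b) h1

end Proc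

end DSP
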