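import Pool.Agent.Work.MP_0890ba_co.DS.Pr.Proc

/-!
# Good environments

If no bad event of the first two kinds happens then the lists of the clusters are large enough.
-/

set_option linter.unusedSectionVars false

namespace DSP

namespace Proc

open Finset Classical BDP BDP.Hub

variable {V Z : Type} [Fintype V] [Nonempty V] [Fintype Z]

namespace Data

variable {P : Data V Z} {δ : ℕ → ℝ} {β r : ℕ → ℕ}

private lemma cut_card (m : ℕ) (T : Finset Z) : (cut m T).card ≤ m := by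
  unfold cut
  split_ifs with h
  · exact (exists_subset_card_eq h).choose_spec.2.le
  · omega

private lemma cut_sub (m : ℕ) (T : Finset Z) : cut m T ⊆ T := by
  unfold cut
  split_ifs with h
  · exact (exists_subset_card_eq h).choose_spec.1
  · exact Subset.refl T

/-- A colour which `z` got on a level on which `z w` is an edge is not undecided at `w`. -/
private lemma shared_aux {x : P.Om} {S : V → ℕ → Finset Z} {z w : V} {c : Z}
    (i : Fin P.J) (hc : c ∈ P.tick x S i z) (hzw : (P.L i).Adj z w) :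
    ¬P.Und i (P.sd x c i) w := by
  intro hw
  unfold tick at hc
  rw [dif_pos i.2, mem_filter] at hc
  have hz := hc.2
  have h1 : (res (P.L i) (Set.univ \ P.X i (fun w => (P.sd x c i w).1))).Adj z w :=
    ⟨hzw, ⟨hz.1, hz.2.1⟩, ⟨hw.1, hw.2.1⟩⟩
  have h0 : Col.cmp (P.L i) (Set.univ \ P.X i (fun w => (P.sd x c i w).1)) z =
      Col.cmp (P.L i) (Set.univ \ P.X i (fun w => (P.sd x c i w).1)) w :=
    Col.cmp_congr (SimpleGraph.Adj.reachable h1)
  have h2 : Col.lead (P.L i) (Set.univ \ P.X i (fun w => (P.sd x c i w).1)) z =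
      Col.lead (P.L i) (Set.univ \ P.X i (fun w => (P.sd x c i w).1)) w := by
    unfold Col.lead
    rw [h0]
  have h3 := hz.2.2
  have h4 := hw.2.2
  change _ ∈ P.tic x S i c _ z at h3
  unfold tic at h3
  split_ifs at h3 with h5
  · have h6 := (mem_filter.1 h3).1
    rw [mem_compl] at h4
    rw [← h2] at h4
    exact h4 h6
  · exact absurd h3 (notMem_empty _)

private lemma coef_nonneg (h : P.Good δ β r) (k : ℕ) :
    0 ≤ ((P.W (k + 1) : ℝ) - P.w (k + 1)) / P.W (k + 1) := by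
  have h1 := h.w_succ k
  have h2 : (P.w (k + 1) : ℝ) ≤ P.W (k + 1) := by
    exact_mod_cast (by omega : P.w (k + 1) ≤ P.W (k + 1))
  exact div_nonneg (by linarith) (Nat.cast_nonneg _)

private lemma ur_step {x : P.Om} {c : Z} {j m : ℕ} (hj : j + 1 < P.J) (hjm : j + 1 < m) (v : V) :
    v ∈ P.Ur x c j m ↔ v ∈ P.Ur x c (j + 1) m ∧ P.Und (j + 1) (P.sd x c ⟨j + 1, hj⟩) v := by
  constructor
  · intro hv
    exact ⟨fun i hi hi' => hv i (by omega) hi', hv ⟨j + 1, hj⟩ (Nat.lt_succ_self j) hjm⟩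
  · rintro ⟨hv, hv'⟩ i hi hi'
    by_cases hij : (i : ℕ) = j + 1
    · obtain rfl : i = ⟨j + 1, hj⟩ := Fin.ext hij
      exact hv'
    · exact hv i (by omega) hi'

private lemma lower (h : P.Good δ β r) {x : P.Om} {ε err : ℝ} (hε1 : ε ≤ 1)
    (h1 : ∀ i, ¬P.Bad1 ε err i x) {a : ℝ} (ha : ∀ v, a ≤ ((P.l v).card : ℝ)) {Alo : ℕ → ℝ}
    (hA0 : Alo (P.J - 1) ≤ a)
    (hA : ∀ k, k + 1 < P.J → Alo k + err ≤
      (((P.W (k + 1) : ℝ) - P.w (k + 1)) / P.W (k + 1) * (1 - ε)) * Alo (k + 1))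
    {k : ℕ} {C : Set V} {y : V} (hC : Conn (P.L k) C) (hCn : C.ncard ≤ P.n k) (hy : y ∈ C) :
    ∀ d j : ℕ, k ≤ j → j + d + 1 = P.J →
      Alo j ≤ (((P.l y).filter fun c => C ⊆ P.Ur x c j P.J).card : ℝ) := by
  intro d
  induction d with
  | zero =>
    intro j _ hj
    have hj' : j = P.J - 1 := by omega
    have h2 : ((P.l y).filter fun c => C ⊆ P.Ur x c j P.J) = P.l y := by
      refine filter_true_of_mem fun c _ v _ i hi hi' => ?_
      omega
    rw [h2, hj']
    exact hA0.trans (ha y)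
  | succ d ih =>
    intro j hkj hj
    have hj1 : j + 1 < P.J := by omega
    have h2 := ih (j + 1) (by omega) (by omega)
    have h3 := h1 (⟨j + 1, hj1⟩, y)
    have h4 : ¬((((P.l y).filter fun c => C ⊆ P.Ur x c (j + 1) P.J ∧
        ∀ v ∈ C, P.Und (j + 1) (P.sd x c ⟨j + 1, hj1⟩) v).card : ℝ) + err <
        (((P.W (j + 1) : ℝ) - P.w (j + 1)) / P.W (j + 1) * (1 - ε)) *
        ((P.l y).filter fun c => C ⊆ P.Ur x c (j + 1) P.J).card) := by
      intro hlt
      exact h3 ⟨C, k, Nat.lt_succ_of_le hkj, hy, hC, hCn, hlt⟩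
    have h5 : ((P.l y).filter fun c => C ⊆ P.Ur x c (j + 1) P.J ∧
        ∀ v ∈ C, P.Und (j + 1) (P.sd x c ⟨j + 1, hj1⟩) v) =
        (P.l y).filter fun c => C ⊆ P.Ur x c j P.J := by
      refine filter_congr fun c _ => ?_
      constructor
      · rintro ⟨g1, g2⟩ v hv
        exact (ur_step hj1 hj1 v).2 ⟨g1 hv, g2 v hv⟩
      · intro g
        exact ⟨fun v hv => ((ur_step hj1 hj1 v).1 (g hv)).1,
          fun v hv => ((ur_step hj1 hj1 v).1 (g hv)).2⟩
    rw [h5, not_lt] at h4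
    have h6 : 0 ≤ ((P.W (j + 1) : ℝ) - P.w (j + 1)) / P.W (j + 1) * (1 - ε) :=
      mul_nonneg (coef_nonneg h j) (by linarith)
    have h7 := mul_le_mul_of_nonneg_left h2 h6
    have h8 := hA j hj1
    linarith

private lemma upper (h : P.Good δ β r) {x : P.Om} {S : V → ℕ → Finset Z} (hS : P.IsRes x S)
    {err : ℝ} (h2 : ∀ i, ¬P.Bad2 err i x S) {Uhi : ℕ → ℕ → ℝ}
    (hU0 : ∀ m, 1 ≤ m → m ≤ P.J → (∑ i ∈ range (m + 1), (P.b i : ℝ)) ≤ Uhi m (m - 1))
    (hU : ∀ m k, m ≤ P.J → k + 1 < m →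
      ((P.W (k + 1) : ℝ) - P.w (k + 1)) / P.W (k + 1) * Uhi m (k + 1) + err ≤ Uhi m k)
    {m : ℕ} (hm : m ≤ P.J) {z y : V} (hzy : P.e z < P.e y)
    (hadj : P.G.Adj z y) (hn : ¬(P.L m).Adj z y) :
    ∀ d j : ℕ, j + d + 1 = m →
      ((((range (m + 1)).biUnion (S z)).filter fun c => y ∈ P.Ur x c j m).card : ℝ) ≤
        Uhi m j := by
  intro d
  induction d with
  | zero =>
    intro j hj
    have hj' : j = m - 1 := by omega
    have h3 : (((range (m + 1)).biUnion (S z)).filter fun c => y ∈ P.Ur x c j m).card ≤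
        ∑ i ∈ range (m + 1), P.b i := by
      refine (card_filter_le _ _).trans (card_biUnion_le.trans (sum_le_sum fun i _ => ?_))
      rw [hS z i]
      exact cut_card _ _
    have h4 : ((((range (m + 1)).biUnion (S z)).filter fun c => y ∈ P.Ur x c j m).card : ℝ) ≤
        ∑ i ∈ range (m + 1), (P.b i : ℝ) := by exact_mod_cast h3
    rw [hj'] at h4 ⊢
    exact h4.trans (hU0 m (by omega) hm)
  | succ d ih =>
    intro j hj
    have hj1 : j + 1 < P.J := by omega
    have hjm : j + 1 < m := by omega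
    have h3 := ih (j + 1) (by omega)
    have h4 : ¬(((P.W (j + 1) : ℝ) - P.w (j + 1)) / P.W (j + 1) *
        (((range (m + 1)).biUnion (S z)).filter fun c => y ∈ P.Ur x c (j + 1) m).card + err <
        (((range (m + 1)).biUnion (S z)).filter fun c => y ∈ P.Ur x c (j + 1) m ∧
          P.Und (j + 1) (P.sd x c ⟨j + 1, hj1⟩) y).card) := by
      intro hlt
      exact h2 (⟨j + 1, hj1⟩, y) ⟨m, z, hm, hjm, hzy, hadj, hn, hlt⟩
    have h5 : (((range (m + 1)).biUnion (S z)).filter fun c => y ∈ P.Ur x c (j + 1) m ∧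
          P.Und (j + 1) (P.sd x c ⟨j + 1, hj1⟩) y) =
        ((range (m + 1)).biUnion (S z)).filter fun c => y ∈ P.Ur x c j m :=
      filter_congr fun c _ => (ur_step hj1 hjm y).symm
    rw [h5, not_lt] at h4
    have h6 := mul_le_mul_of_nonneg_left h3 (coef_nonneg h j)
    have h7 := hU m j hm hjm
    linarith

/-- The colours of one adversary. -/
private lemma one_adv (h : P.Good δ β r) {x : P.Om} {S : V → ℕ → Finset Z} (hS : P.IsRes x S)
    {err : ℝ} (h2 : ∀ i, ¬P.Bad2 err i x S) {Uhi : ℕ → ℕ → ℝ}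
    (hU0 : ∀ m, 1 ≤ m → m ≤ P.J → (∑ i ∈ range (m + 1), (P.b i : ℝ)) ≤ Uhi m (m - 1))
    (hU : ∀ m k, m ≤ P.J → k + 1 < m →
      ((P.W (k + 1) : ℝ) - P.w (k + 1)) / P.W (k + 1) * Uhi m (k + 1) + err ≤ Uhi m k)
    {k : ℕ} (hk : k < P.J) {z y : V} (hzy : P.e z < P.e y)
    (hadj : P.G.Adj z y) (hn : ¬(P.L (k + 1)).Adj z y) :
    ∃ m, k < m ∧ m ≤ P.J ∧
      ((((range P.J).biUnion (S z)).filter fun c => y ∈ P.Ur x c k P.J).card : ℝ) ≤ Uhi m k := by
  let Q : ℕ → Prop := fun m => ¬(P.L m).Adj z y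
  have hQ : Q (k + 1) := hn
  set m := Nat.findGreatest Q P.J with hmdef
  have hm1 : Q m := Nat.findGreatest_spec (by omega : k + 1 ≤ P.J) hQ
  have hm2 : k + 1 ≤ m := Nat.le_findGreatest (by omega) hQ
  have hm3 : m ≤ P.J := Nat.findGreatest_le P.J
  have hm4 : ∀ i, m < i → i ≤ P.J → (P.L i).Adj z y := by
    intro i hi hi'
    by_contra hcon
    exact Nat.findGreatest_is_greatest hi hi' hcon
  refine ⟨m, hm2, hm3, ?_⟩
  have h3 := upper h hS h2 hU0 hU hm3 hzy hadj hm1 (m - k - 1) k (by omega)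
  refine le_trans ?_ h3
  have h4 : (((range P.J).biUnion (S z)).filter fun c => y ∈ P.Ur x c k P.J) ⊆
      ((range (m + 1)).biUnion (S z)).filter fun c => y ∈ P.Ur x c k m := by
    intro c hc
    rw [mem_filter, mem_biUnion] at hc
    obtain ⟨⟨i, hi, hci⟩, hy⟩ := hc
    rw [mem_range] at hi
    have hle : i ≤ m := by
      by_contra hlt
      rw [not_le] at hlt
      have h5 : c ∈ P.tick x S (⟨i, hi⟩ : Fin P.J) z := by
        rw [hS z i] at hci
        exact cut_sub _ _ hci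
      exact shared_aux ⟨i, hi⟩ h5 (hm4 i hlt hi.le) (hy ⟨i, hi⟩ (by
        show k < i
        omega) hi)
    rw [mem_filter, mem_biUnion]
    exact ⟨⟨i, mem_range.2 (by omega), hci⟩, fun i' hi' hi'' => hy i' hi' i'.2⟩
  exact_mod_cast card_le_card h4

/-- Without bad events of the first two kinds all environments are good. -/
theorem env_good (h : P.Good δ β r) {x : P.Om} {S : V → ℕ → Finset Z} (hS : P.IsRes x S)
    {ε err : ℝ} (hε0 : 0 ≤ ε) (hε1 : ε ≤ 1) (herr : 0 ≤ err)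
    (h1 : ∀ i, ¬P.Bad1 ε err i x) (h2 : ∀ i, ¬P.Bad2 err i x S)
    {a : ℝ} (ha : ∀ v, a ≤ ((P.l v).card : ℝ)) {Alo : ℕ → ℝ} {Uhi : ℕ → ℕ → ℝ}
    (hA0 : Alo (P.J - 1) ≤ a)
    (hA : ∀ k, k + 1 < P.J → Alo k + err ≤
      (((P.W (k + 1) : ℝ) - P.w (k + 1)) / P.W (k + 1) * (1 - ε)) * Alo (k + 1))
    (hU0 : ∀ m, 1 ≤ m → m ≤ P.J → (∑ i ∈ range (m + 1), (P.b i : ℝ)) ≤ Uhi m (m - 1))
    (hU : ∀ m k, m ≤ P.J → k + 1 < m →
      ((P.W (k + 1) : ℝ) - P.w (k + 1)) / P.W (k + 1) * Uhi m (k + 1) + err ≤ Uhi m k)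
    (hβ1 : ∀ k < P.J, 5 * (β k : ℝ) ≤ Alo k)
    (hβ2 : ∀ k m, k < m → m ≤ P.J → 3 * (β k : ℝ) + 2 * Uhi m k ≤ Alo k) :
    ∀ i : P.I, i.2 ∉ P.D i.1 → P.EnvGood β i x S := by
  rintro ⟨k, v⟩ hvD C hC hCn hvC y hy
  change v ∉ P.D k at hvD
  change Conn (P.L k) C at hC
  change C.ncard ≤ P.n k at hCn
  change v ∈ C at hvC
  change y ∈ P.clus k C v at hy
  change 5 * β k ≤ (P.lists x S k C (P.clus k C v) y).card +
    hn P.G (P.adv k (P.clus k C v)) y * β k
  set K := P.clus k C v with hKdef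
  have hv : v ∈ C \ P.D k := ⟨hvC, hvD⟩
  have hKsub : K ⊆ C \ P.D k := cmp_subset hv
  have hK : Conn (P.L k) K := conn_cmp _ _
  have hKn : K.ncard ≤ P.n k :=
    (Set.ncard_le_ncard (fun w hw => (hKsub hw).1) (Set.toFinite _)).trans hCn
  have hKD : Disjoint K (P.D k) := by
    rw [Set.disjoint_left]
    exact fun w hw => (hKsub hw).2
  obtain ⟨c1, c2, -, c4⟩ := h.clu k k.2 K hK hKn hKD
  have hlow := lower h hε1 h1 ha hA0 hA hC hCn (hKsub hy).1 (P.J - k - 1) k le_rfl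
    (by have := k.2; omega)
  set F := (P.l y).filter fun c => C ⊆ P.Ur x c k P.J with hF
  set Zy := (P.adv k K).filter fun z => P.G.Adj z y with hZy
  have hlist : P.lists x S k C K y = F \ Zy.biUnion fun z => (range P.J).biUnion (S z) := by
    unfold lists
    rw [if_pos hy]
  have hhn : hn P.G (P.adv k K) y = Zy.card := rfl
  have hZcard : Zy.card ≤ 2 := (card_filter_le _ _).trans c1
  -- the colours of the adversaries
  have hadv : ∀ z ∈ Zy, ∃ m, (k : ℕ) < m ∧ m ≤ P.J ∧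
      ((((range P.J).biUnion (S z)).filter fun c => y ∈ P.Ur x c k P.J).card : ℝ) ≤ Uhi m k := by
    intro z hz
    rw [hZy, mem_filter] at hz
    exact one_adv h hS h2 hU0 hU k.2 (c2 z hz.1 y hy) hz.2 (c4 z hz.1 y hy hz.2)
  have hcard : F.card ≤ (P.lists x S k C K y).card +
      ∑ z ∈ Zy, (((range P.J).biUnion (S z)).filter fun c => y ∈ P.Ur x c k P.J).card := by
    rw [hlist, ← card_sdiff_add_card_inter F (Zy.biUnion fun z => (range P.J).biUnion (S z))]
    refine Nat.add_le_add_left (le_trans (card_le_card ?_) card_biUnion_le) _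
    intro c hc
    rw [mem_inter, mem_biUnion] at hc
    obtain ⟨hcF, z, hz, hcz⟩ := hc
    rw [mem_biUnion]
    refine ⟨z, hz, mem_filter.2 ⟨hcz, ?_⟩⟩
    rw [hF, mem_filter] at hcF
    exact hcF.2 (hKsub hy).1
  have hsum : ∀ z ∈ Zy, 2 * ((((range P.J).biUnion (S z)).filter
      fun c => y ∈ P.Ur x c k P.J).card : ℝ) ≤ Alo k - 3 * β k := by
    intro z hz
    obtain ⟨m, hm1, hm2, hm3⟩ := hadv z hz
    have := hβ2 k m hm1 hm2
    linarith
  have hsum2 := sum_le_sum hsum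
  rw [← mul_sum, sum_const, nsmul_eq_mul] at hsum2
  have hcard' : (F.card : ℝ) ≤ (P.lists x S k C K y).card +
      ∑ z ∈ Zy, ((((range P.J).biUnion (S z)).filter fun c => y ∈ P.Ur x c k P.J).card : ℝ) := by
    exact_mod_cast hcard
  have hb1 := hβ1 k k.2
  rw [hhn]
  have hgoal : (5 : ℝ) * β k ≤ (P.lists x S k C K y).card + Zy.card * β k := by
    interval_cases hc : Zy.card
    · push_cast at hsum2 ⊢
      linarith
    · push_cast at hsum2 ⊢
      linarith
    · push_cast at hsum2 ⊢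
      linarith
  exact_mod_cast hgoal

end Data

end Proc

end DSP
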