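import Pool.Agent.Work.MP_0890ba_co.DS.Pr.Rec

/-!
# The random process with nested levels: locality of the bad events
-/

set_option linter.unusedSectionVars false

namespace DSP

namespace Proc

open Finset Classical BDP BDP.Hub

variable {V Z : Type} [Fintype V] [Nonempty V] [Fintype Z]

namespace Data

variable {P : Data V Z} {δ : ℕ → ℝ} {β r : ℕ → ℕ}

lemma r_step (h : P.Good δ β r) {k : ℕ} : ∀ {j : ℕ}, k < j → r k + P.rad k + P.rad j ≤ r j := by
  intro j hj
  induction j with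
  | zero => omega
  | succ j ih =>
    have h1 := h.r_succ j
    rcases Nat.lt_or_eq_of_le (Nat.le_of_lt_succ hj) with h2 | h2
    · have h3 := ih h2
      omega
    · subst h2
      exact h1

/-- The seeds near a vertex on the higher levels are earlier. -/
lemma mem_env_high (h : P.Good δ β r) {i i' : P.I} (hi : (i.1 : ℕ) < (i'.1 : ℕ))
    (hn : Near (P.L i'.1) (P.rad i'.1) i.2 i'.2) : i' ∈ P.Env r i := by
  rw [Env, mem_filter]
  refine ⟨mem_univ _, fun i'' hi'' => ?_⟩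
  rw [N, mem_filter] at hi''
  obtain ⟨_, h1, h2⟩ := hi''
  obtain ⟨u, hu1, hu2⟩ := exists_tau (P := P) (r := r) i.1 i''.2
  have h3 : P.tau r i'.1 i'.2 ≤ P.e u := by
    refine tau_le ?_
    have h4 : Near (P.L i'.1) (P.rad i.1 + r i.1) i.2 u :=
      (h2.trans hu1).of_le (h.Lmono hi.le)
    exact (hn.symm.trans h4).mono (by have := r_step h hi; omega)
  unfold tm
  rw [h1, hu2]
  have h5 : P.J - 1 - (i'.1 : ℕ) < P.J - 1 - (i.1 : ℕ) := by
    have := i'.1.2
    omega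
  have h6 := Nat.mul_le_mul_right P.J h3
  omega

/-- The seeds which are revealed before all vertices near `v` are earlier. -/
lemma mem_env_before {i i' : P.I} {t : ℕ} (ht : P.tau r i'.1 i'.2 ≤ t)
    (hb : ∀ u, Near (P.L i.1) (P.rad i.1 + r i.1) i.2 u → t < P.e u) : i' ∈ P.Env r i := by
  rw [Env, mem_filter]
  refine ⟨mem_univ _, fun i'' hi'' => ?_⟩
  rw [N, mem_filter] at hi''
  obtain ⟨_, h1, h2⟩ := hi''
  obtain ⟨u, hu1, hu2⟩ := exists_tau (P := P) (r := r) i.1 i''.2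
  have h3 : t < P.e u := hb u (h2.trans hu1)
  unfold tm
  rw [h1, hu2]
  have h4 : P.tau r i'.1 i'.2 + 1 ≤ P.e u := by omega
  have h5 : P.J - 1 - (i'.1 : ℕ) < P.J := by
    have := i'.1.2
    omega
  have h6 := Nat.mul_le_mul_right P.J h4
  rw [Nat.add_mul, Nat.one_mul] at h6
  omega

/-- The sets of the vertices which come before all vertices near `v` are determined. -/
lemma set_local (h : P.Good δ β r) {i : P.I} {x x' : P.Om} {S S' : V → ℕ → Finset Z}
    (hS : P.IsRes x S) (hS' : P.IsRes x' S') (hE : ∀ i' ∈ P.Env r i, x i' = x' i') {z w : V}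
    (hzw : P.G.Adj z w) (hlt : P.e z < P.e w) (hL : ¬(P.L (i.1 + 1)).Adj z w)
    (hw : Near (P.L i.1) (P.n i.1) i.2 w) : S z = S' z := by
  refine res_local h hS hS' z fun i' hi' => hE i' (mem_env_before hi' fun u hu => ?_)
  exact h.fresh i.1 i.1.2 z w hzw hlt hL u ((hw.symm.trans hu).mono (by unfold rad; omega))

/-- The undecided colours on the higher levels are determined. -/
lemma ur_env (h : P.Good δ β r) {i : P.I} {x x' : P.Om} (hE : ∀ i' ∈ P.Env r i, x i' = x' i')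
    (m : ℕ) (c : Z) {C : Set V} (hC : ∀ y ∈ C, Near (P.L i.1) (P.n i.1) i.2 y) :
    C ⊆ P.Ur x c i.1 m ↔ C ⊆ P.Ur x' c i.1 m :=
  ur_local h m c hC fun i' hi' hn => hE i' (mem_env_high h hi' hn)

/-- The undecided colours on the level itself are determined. -/
lemma und_env (h : P.Good δ β r) {i : P.I} {x x' : P.Om} (hN : ∀ i' ∈ P.N i, x i' = x' i')
    (c : Z) {y : V} (hy : Near (P.L i.1) (P.n i.1) i.2 y) :
    P.Und i.1 (P.sd x c i.1) y ↔ P.Und i.1 (P.sd x' c i.1) y := by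
  refine und_local h i.1.2 fun w hw => congrFun (hN (i.1, w) ?_) c
  rw [N, mem_filter]
  exact ⟨mem_univ _, rfl, (hy.trans hw).mono (by unfold rad; omega)⟩

theorem bad1_local (h : P.Good δ β r) {ε err : ℝ} {i : P.I} {x x' : P.Om}
    (hN : ∀ i' ∈ P.N i, x i' = x' i') (hE : ∀ i' ∈ P.Env r i, x i' = x' i')
    (hb : P.Bad1 ε err i x) : P.Bad1 ε err i x' := by
  obtain ⟨C, j, hj, hi, hC, hn, hb⟩ := hb
  refine ⟨C, j, hj, hi, hC, hn, ?_⟩
  have h1 : ∀ y ∈ C, Near (P.L i.1) (P.n i.1) i.2 y := fun y hy =>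
    ((hC.near (Set.toFinite _) hn hi hy).of_le (h.Lmono hj.le)).mono (h.nmono hj.le)
  have h2 : ∀ c, C ⊆ P.Ur x c i.1 P.J ↔ C ⊆ P.Ur x' c i.1 P.J := fun c => ur_env h hE P.J c h1
  have h3 : ∀ c, (∀ y ∈ C, P.Und i.1 (P.sd x c i.1) y) ↔ ∀ y ∈ C, P.Und i.1 (P.sd x' c i.1) y :=
    fun c => forall_congr' fun y => forall_congr' fun hy => und_env h hN c (h1 y hy)
  have h4 : ((P.l i.2).filter fun c => C ⊆ P.Ur x c i.1 P.J) =
      (P.l i.2).filter fun c => C ⊆ P.Ur x' c i.1 P.J := filter_congr fun c _ => h2 c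
  have h5 : ((P.l i.2).filter fun c => C ⊆ P.Ur x c i.1 P.J ∧
      ∀ y ∈ C, P.Und i.1 (P.sd x c i.1) y) =
      (P.l i.2).filter fun c => C ⊆ P.Ur x' c i.1 P.J ∧
        ∀ y ∈ C, P.Und i.1 (P.sd x' c i.1) y :=
    filter_congr fun c _ => and_congr (h2 c) (h3 c)
  rw [h4, h5] at hb
  exact hb

theorem bad2_local (h : P.Good δ β r) {err : ℝ} {i : P.I} {x x' : P.Om}
    {S S' : V → ℕ → Finset Z} (hS : P.IsRes x S) (hS' : P.IsRes x' S')
    (hN : ∀ i' ∈ P.N i, x i' = x' i') (hE : ∀ i' ∈ P.Env r i, x i' = x' i')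
    (hb : P.Bad2 err i x S) : P.Bad2 err i x' S' := by
  obtain ⟨m, z, hm, him, hz, hG, hL, hb⟩ := hb
  refine ⟨m, z, hm, him, hz, hG, hL, ?_⟩
  have h0 : Near (P.L i.1) (P.n i.1) i.2 i.2 := Near.refl _ _ _
  have h1 : S z = S' z := set_local h hS hS' hE hG hz
    (fun h2 => hL (h.Lmono (show (i.1 : ℕ) + 1 ≤ m from him) h2)) h0
  have h2 : ∀ c, i.2 ∈ P.Ur x c i.1 m ↔ i.2 ∈ P.Ur x' c i.1 m := by
    intro c
    have h3 := ur_env h hE m c (C := {i.2}) (by
      intro y hy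
      rw [Set.mem_singleton_iff.1 hy]
      exact h0)
    rwa [Set.singleton_subset_iff, Set.singleton_subset_iff] at h3
  have h4 : (((range (m + 1)).biUnion (S z)).filter fun c => i.2 ∈ P.Ur x c i.1 m) =
      ((range (m + 1)).biUnion (S' z)).filter fun c => i.2 ∈ P.Ur x' c i.1 m := by
    rw [h1]
    exact filter_congr fun c _ => h2 c
  have h5 : (((range (m + 1)).biUnion (S z)).filter fun c => i.2 ∈ P.Ur x c i.1 m ∧
      P.Und i.1 (P.sd x c i.1) i.2) =
      ((range (m + 1)).biUnion (S' z)).filter fun c => i.2 ∈ P.Ur x' c i.1 m ∧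
        P.Und i.1 (P.sd x' c i.1) i.2 := by
    rw [h1]
    exact filter_congr fun c _ => and_congr (h2 c) (und_env h hN c h0)
  rw [h4, h5] at hb
  exact hb

theorem bad3_local (h : P.Good δ β r) {i : P.I} {x x' : P.Om}
    {S S' : V → ℕ → Finset Z} (hS : P.IsRes x S) (hS' : P.IsRes x' S')
    (hN : ∀ i' ∈ P.N i, x i' = x' i') (hE : ∀ i' ∈ P.Env r i, x i' = x' i')
    (hb : P.Bad3 β i x S) : P.Bad3 β i x' S' := by
  obtain ⟨hD, hg, hb⟩ := hb
  have h1 : P.tick x S i.1 i.2 = P.tick x' S' i.1 i.2 := by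
    refine tick_local h (fun i' hi' hn => ?_) fun _ z w hG hz hL hw _ =>
      set_local h hS hS' hE hG hz hL hw
    rcases Nat.lt_or_eq_of_le hi' with h2 | h2
    · exact hE i' (mem_env_high h h2 hn)
    · have h3 : i.1 = i'.1 := Fin.ext h2
      refine hN i' ?_
      rw [N, mem_filter]
      rw [← h3] at hn
      exact ⟨mem_univ _, h3.symm, hn⟩
  refine ⟨hD, fun C hC hn hi y hy => ?_, h1 ▸ hb⟩
  have h2 : ∀ y ∈ C, Near (P.L i.1) (P.n i.1) i.2 y := fun y hy =>
    hC.near (Set.toFinite _) hn hi hy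
  have h3 : P.lists x S i.1 C (P.clus i.1 C i.2) = P.lists x' S' i.1 C (P.clus i.1 C i.2) := by
    refine lists_local (fun c => ur_env h hE P.J c h2) fun z hz => ?_
    obtain ⟨_, w, hw, h4, h5, h6⟩ := adv_good h i.1.2 hn hi hD hz
    exact set_local h hS hS' hE h5 h4 h6 (h2 w hw)
  have h4 := hg C hC hn hi y hy
  rw [h3] at h4
  exact h4

end Data

end Proc

end DSP
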