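import Pool.Agent.Work.MP_0890ba_co.DS.Pr.PrBase

/-!
# The process: the probability that too few colours stay undecided on a set
-/

set_option linter.unusedSectionVars false

namespace DSP

namespace Proc

open Finset Classical BDP BDP.Hub

variable {V Z : Type} [Fintype V] [Nonempty V] [Fintype Z]

namespace Data

variable {P : Data V Z} {δ : ℕ → ℝ} {β r : ℕ → ℕ}

lemma near_le {L L' : SimpleGraph V} (hL : L ≤ L') {k l : ℕ} (hkl : k ≤ l) {u v : V}
    (h : Near L k u v) : Near L' l u v := by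
  obtain ⟨p, hp⟩ := h
  exact ⟨p.mapLe hL, by rw [SimpleGraph.Walk.length_mapLe]; omega⟩

lemma sd_nonempty (h : P.Good δ β r) (k : ℕ) : Nonempty (P.Sd k) := by
  have h1 : Nonempty (Fin (P.rr k)) := ⟨⟨0, h.rr_pos k⟩⟩
  have h2 : Nonempty (Fin (P.W k)) := ⟨⟨0, W_pos h k⟩⟩
  have h3 : Nonempty (Fin (P.nT (P.n k))) := ⟨⟨0, h.nT_pos _⟩⟩
  infer_instance

lemma tail_nonneg (h : P.Good δ β r) {k : ℕ} {q t Cc : ℝ} (hT : P.Tail k q t Cc)
    (hC : 0 ≤ Cc) : 0 ≤ q := by
  have := sd_nonempty h k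
  have h1 := hT ∅ (fun _ _ => True) 0 (by rw [card_empty]; exact_mod_cast hC)
    (by rw [zero_mul]; exact sum_nonneg fun _ _ => Nat.cast_nonneg _)
  have h2 : (0 : ℝ) < Fintype.card (V → Z → P.Sd k) := by exact_mod_cast Fintype.card_pos
  have h3 : 0 ≤ q * Fintype.card (V → Z → P.Sd k) := le_trans (Nat.cast_nonneg _) h1
  exact nonneg_of_mul_nonneg_left h3 h2

lemma marg_gen2 {ι : Type} [Fintype ι] [DecidableEq ι] {β : ι → Type} [∀ j, Fintype (β j)] (k : ι)
    (F0 : Finset (β k)) {q : ℝ} (hq : (F0.card : ℝ) ≤ q * Fintype.card (β k))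
    (F : Finset (∀ j, β j)) (hF : ∀ z ∈ F, z k ∈ F0) :
    (F.card : ℝ) ≤ q * Fintype.card (∀ j, β j) := by
  obtain ⟨Q, hQ⟩ : ∃ Q : β k → Prop, ∀ om, Q om ↔ om ∈ F0 := ⟨_, fun _ => Iff.rfl⟩
  have h1 : ((univ.filter fun om : β k => Q om).card : ℝ) ≤ q * Fintype.card (β k) := by
    have h2 : (univ.filter fun om : β k => Q om) = F0 := by
      ext om
      rw [mem_filter, hQ]
      exact ⟨fun h => h.2, fun h => ⟨mem_univ _, h⟩⟩
    rw [h2]
    exact hq
  refine le_trans ?_ (marg_gen k Q h1)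
  rw [Nat.cast_le]
  apply card_le_card
  intro z hz
  exact mem_filter.2 ⟨mem_univ _, (hQ _).2 (hF z hz)⟩

lemma marg2 (k : Fin P.J) (F0 : Finset (V → Z → P.Sd k)) {q : ℝ}
    (hq : (F0.card : ℝ) ≤ q * Fintype.card (V → Z → P.Sd k)) (F : Finset P.Om)
    (hF : ∀ z ∈ F, (fun v => z (k, v)) ∈ F0) : (F.card : ℝ) ≤ q * Fintype.card P.Om := by
  have h0 := marg_gen2 (β := fun j : Fin P.J => V → Z → P.Sd j) k F0 hq
    (F.map (omEquiv P).toEmbedding) (by
      intro z hz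
      rw [mem_map] at hz
      obtain ⟨y, hy, rfl⟩ := hz
      exact hF y hy)
  rw [card_map] at h0
  have h2 : Fintype.card P.Om = Fintype.card ((j : Fin P.J) → V → Z → P.Sd j) :=
    Fintype.card_congr (omEquiv P)
  rw [h2]
  exact h0

/-- The tail bound for sets of seeds of all levels. -/
lemma tail_marg {k : Fin P.J} {q t Cc : ℝ} (hT : P.Tail k q t Cc) (Sg : Finset Z)
    (H : Z → (V → P.Sd k) → Prop) (s : ℝ) (hSg : (Sg.card : ℝ) ≤ Cc)
    (D : Z → Finset (V → P.Sd k)) (hD : ∀ c ∈ Sg, ∀ η ∈ D c, H c η)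
    (hs : s * Fintype.card (V → P.Sd k) ≤ ∑ c ∈ Sg, ((D c).card : ℝ)) (F : Finset P.Om)
    (hF : ∀ z ∈ F, ∃ T : Finset Z, (∀ c ∈ Sg, H c (P.sd z c k) → c ∈ T) ∧
      (T.card : ℝ) + t < s) :
    (F.card : ℝ) ≤ q * Fintype.card P.Om := by
  have h0 : ∑ c ∈ Sg, ((D c).card : ℝ) ≤
      ∑ c ∈ Sg, ((univ.filter fun η : V → P.Sd k => H c η).card : ℝ) := by
    refine sum_le_sum fun c hc => ?_
    rw [Nat.cast_le]
    apply card_le_card
    intro η hη
    exact mem_filter.2 ⟨mem_univ _, hD c hc η hη⟩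
  refine marg2 k _ (hT Sg H s hSg (hs.trans h0)) F ?_
  intro z hz
  obtain ⟨T, hT1, hT2⟩ := hF z hz
  refine mem_filter.2 ⟨mem_univ _, ?_⟩
  have h3 : (Sg.filter fun c => H c fun v => z (k, v) c) ⊆ T := by
    intro c hc
    rw [mem_filter] at hc
    exact hT1 c hc.1 hc.2
  have h4 : ((Sg.filter fun c => H c fun v => z (k, v) c).card : ℝ) ≤ T.card := by
    exact_mod_cast card_le_card h3
  exact lt_of_le_of_lt (add_le_add h4 le_rfl) hT2

/-- The event for one set `C`. -/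
lemma bad1_one (h : P.Good δ β r) {ε err q Cc : ℝ} (i : P.I) (x : P.Om)
    (hT : P.Tail i.1 q err Cc) (hl : ∀ v, ((P.l v).card : ℝ) ≤ Cc) {j : ℕ} (hj : j < (i.1 : ℕ))
    {C : Set V} (hC : Conn (P.L j) C) (hv : i.2 ∈ C) (hε : (C.ncard : ℝ) * δ i.1 ≤ ε)
    (F : Finset P.Om)
    (hF : ∀ z ∈ F, ((((P.l i.2).filter fun c => C ⊆ P.Ur x c i.1 P.J).filter fun c =>
        ∀ y ∈ C, P.Und i.1 (P.sd z c i.1) y).card : ℝ) + err <
      (((P.W i.1 : ℝ) - P.w i.1) / P.W i.1 * (1 - ε)) *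
        ((P.l i.2).filter fun c => C ⊆ P.Ur x c i.1 P.J).card) :
    (F.card : ℝ) ≤ q * Fintype.card P.Om := by
  refine tail_marg hT ((P.l i.2).filter fun c => C ⊆ P.Ur x c i.1 P.J)
    (fun c η => ∀ y ∈ C, P.Und i.1 η y) _ ?_
    (fun c => univ.filter fun η : V → P.Sd i.1 => ∀ y ∈ C, P.Und i.1 η y) ?_ ?_ F
    (fun z hz => ⟨_, ?_, hF z hz⟩)
  · refine le_trans ?_ (hl i.2)
    exact_mod_cast card_filter_le _ _
  · intro c _ η hη
    exact (mem_filter.1 hη).2
  · rw [sum_const, nsmul_eq_mul]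
    have h1 := many_und h i.1.2 hj.le hC hv hε
    have h2 := mul_le_mul_of_nonneg_left h1
      (Nat.cast_nonneg (α := ℝ) ((P.l i.2).filter fun c => C ⊆ P.Ur x c i.1 P.J).card)
    refine le_trans (le_of_eq ?_) h2
    ring
  · intro c hc hH
    exact mem_filter.2 ⟨hc, hH⟩

theorem bad1_prob (h : P.Good δ β r) {ε err q Cc : ℝ} (i : P.I) (x : P.Om)
    (hT : P.Tail i.1 q err Cc) (hl : ∀ v, ((P.l v).card : ℝ) ≤ Cc)
    (hδ : ∀ j, j < (i.1 : ℕ) → (P.n j : ℝ) * δ i.1 ≤ ε) :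
    ((univ.filter fun z : P.Om => P.Bad1 ε err i ((P.N i).piecewise z x)).card : ℝ) ≤
      (2 ^ (univ.filter fun y => Near (P.L i.1) (P.rad i.1) i.2 y).card * P.J * q) *
        Fintype.card P.Om := by
  have hCc : 0 ≤ Cc := le_trans (Nat.cast_nonneg _) (hl i.2)
  have hq := tail_nonneg h hT hCc
  have hδ0 : 0 ≤ δ i.1 := by
    have h1 := (h.sch i.1 i.1.2).prob i.2
    have h2 : (0 : ℝ) < Fintype.card (V → Alph (P.rr i.1)) := by
      have h1 : Nonempty (Fin (P.rr i.1)) := ⟨⟨0, h.rr_pos i.1⟩⟩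
      exact_mod_cast Fintype.card_pos
    have h3 : 0 ≤ δ i.1 * Fintype.card (V → Alph (P.rr i.1)) := le_trans (Nat.cast_nonneg _) h1
    exact nonneg_of_mul_nonneg_left h3 h2
  set ball := univ.filter fun y => Near (P.L i.1) (P.rad i.1) i.2 y with hball
  -- the event for a set and a level
  let ev : Set V → ℕ → Finset P.Om := fun C j => univ.filter fun z =>
    j < (i.1 : ℕ) ∧ i.2 ∈ C ∧ Conn (P.L j) C ∧ C.ncard ≤ P.n j ∧
      ((((P.l i.2).filter fun c => C ⊆ P.Ur x c i.1 P.J).filter fun c =>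
        ∀ y ∈ C, P.Und i.1 (P.sd z c i.1) y).card : ℝ) + err <
      (((P.W i.1 : ℝ) - P.w i.1) / P.W i.1 * (1 - ε)) *
        ((P.l i.2).filter fun c => C ⊆ P.Ur x c i.1 P.J).card
  have hmem : ∀ (C : Set V) (j : ℕ) (z : P.Om), j < (i.1 : ℕ) → i.2 ∈ C → Conn (P.L j) C →
      C.ncard ≤ P.n j →
      ((((P.l i.2).filter fun c => C ⊆ P.Ur x c i.1 P.J).filter fun c =>
        ∀ y ∈ C, P.Und i.1 (P.sd z c i.1) y).card : ℝ) + err <
      (((P.W i.1 : ℝ) - P.w i.1) / P.W i.1 * (1 - ε)) *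
        ((P.l i.2).filter fun c => C ⊆ P.Ur x c i.1 P.J).card → z ∈ ev C j :=
    fun C j z h1 h2 h3 h4 h5 => mem_filter.2 ⟨mem_univ _, h1, h2, h3, h4, h5⟩
  have hev : ∀ C j, ((ev C j).card : ℝ) ≤ q * Fintype.card P.Om := by
    intro C j
    by_cases hc : j < (i.1 : ℕ) ∧ i.2 ∈ C ∧ Conn (P.L j) C ∧ C.ncard ≤ P.n j
    · obtain ⟨h1, h2, h3, h4⟩ := hc
      refine bad1_one h i x hT hl h1 h3 h2 (ε := ε) ?_ _ ?_
      · refine le_trans ?_ (hδ j h1)
        apply mul_le_mul_of_nonneg_right _ hδ0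
        exact_mod_cast h4
      · intro z hz
        exact (mem_filter.1 hz).2.2.2.2.2
    · have h0 : ev C j = ∅ := by
        rw [filter_eq_empty_iff]
        intro z _ hz
        exact hc ⟨hz.1, hz.2.1, hz.2.2.1, hz.2.2.2.1⟩
      rw [h0, card_empty]
      push_cast
      positivity
  have hsub : (univ.filter fun z : P.Om => P.Bad1 ε err i ((P.N i).piecewise z x)) ⊆
      ball.powerset.biUnion fun C => (range P.J).biUnion fun j => ev (C : Set V) j := by
    intro z hz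
    obtain ⟨-, C, j, hj, hvC, hC, hCn, hlt⟩ := mem_filter.1 hz
    have hnear : ∀ y ∈ C, Near (P.L i.1) (P.n i.1) i.2 y := fun y hy =>
      near_le (h.Lmono hj.le) (h.nmono hj.le) (Far.near_of_conn hC hCn hvC hy)
    have hCC : ((C.toFinset : Finset V) : Set V) = C := Set.coe_toFinset C
    refine mem_biUnion.2 ⟨C.toFinset, ?_, mem_biUnion.2 ⟨j, ?_, ?_⟩⟩
    · rw [mem_powerset]
      intro y hy
      rw [Set.mem_toFinset] at hy
      rw [hball, mem_filter]
      refine ⟨mem_univ _, Col.near_mono ?_ (hnear y hy)⟩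
      unfold rad
      omega
    · rw [mem_range]
      have := i.1.2
      omega
    · rw [hCC]
      refine hmem C j z hj hvC hC hCn ?_
      have e1 : ((P.l i.2).filter fun c => C ⊆ P.Ur ((P.N i).piecewise z x) c i.1 P.J) =
          (P.l i.2).filter fun c => C ⊆ P.Ur x c i.1 P.J := by
        apply filter_congr
        intro c _
        rw [ur_pw i z x c le_rfl]
      have e2 : ((P.l i.2).filter fun c => C ⊆ P.Ur ((P.N i).piecewise z x) c i.1 P.J ∧
          ∀ y ∈ C, P.Und i.1 (P.sd ((P.N i).piecewise z x) c i.1) y) =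
          ((P.l i.2).filter fun c => C ⊆ P.Ur x c i.1 P.J).filter fun c =>
            ∀ y ∈ C, P.Und i.1 (P.sd z c i.1) y := by
        rw [filter_filter]
        apply filter_congr
        intro c _
        rw [ur_pw i z x c le_rfl]
        apply and_congr Iff.rfl
        exact forall₂_congr fun y hy => und_pw h i z x c (hnear y hy)
      rw [e1, e2] at hlt
      exact hlt
  have hc1 : ∀ C : Set V, (((range P.J).biUnion fun j => ev C j).card : ℝ) ≤
      P.J * (q * Fintype.card P.Om) := by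
    intro C
    have h1 : (((range P.J).biUnion fun j => ev C j).card : ℝ) ≤
        ∑ j ∈ range P.J, ((ev C j).card : ℝ) := by
      exact_mod_cast card_biUnion_le
    refine h1.trans ((sum_le_sum fun j _ => hev C j).trans ?_)
    rw [sum_const, nsmul_eq_mul, card_range]
  have h2 : ((ball.powerset.biUnion fun C =>
      (range P.J).biUnion fun j => ev (C : Set V) j).card : ℝ) ≤
      ∑ C ∈ ball.powerset, (((range P.J).biUnion fun j => ev (C : Set V) j).card : ℝ) := by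
    exact_mod_cast card_biUnion_le
  have h3 : ∑ C ∈ ball.powerset, (((range P.J).biUnion fun j => ev (C : Set V) j).card : ℝ) ≤
      ∑ _C ∈ ball.powerset, (P.J * (q * Fintype.card P.Om)) :=
    sum_le_sum fun C _ => hc1 (C : Set V)
  refine (Nat.cast_le.2 (card_le_card hsub)).trans (h2.trans (h3.trans ?_))
  rw [sum_const, nsmul_eq_mul, card_powerset]
  push_cast
  exact le_of_eq (by ring)

end Data

end Proc

end DSP
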