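import Pool.Agent.Work.MP_0890ba_co.DS.Pr.Pr1
import Pool.Agent.Work.MP_0890ba_co.DS.Pr.Rec

/-!
# The process: the probability that too many colours of an adversary stay undecided
-/

set_option linter.unusedSectionVars false

namespace DSP

namespace Proc

open Finset Classical BDP BDP.Hub

variable {V Z : Type} [Fintype V] [Nonempty V] [Fintype Z]

namespace Data

variable {P : Data V Z} {δ : ℕ → ℝ} {β r : ℕ → ℕ}

private lemma p2_cut_le (m : ℕ) (T : Finset Z) : (cut m T).card ≤ m := by
  unfold cut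
  by_cases h : m ≤ T.card
  · rw [dif_pos h]
    exact (exists_subset_card_eq h).choose_spec.2.le
  · rw [dif_neg h]
    exact (not_le.1 h).le

/-- The sets of an adversary do not depend on the seeds near the vertex. -/
private lemma p2_res_eq (h : P.Good δ β r) {i : P.I} {x z : P.Om} {S S0 : V → ℕ → Finset Z}
    (hS : P.IsRes ((P.N i).piecewise z x) S) (hS0 : P.IsRes x S0) {m : ℕ} {a : V}
    (him : (i.1 : ℕ) < m) (hlt : P.e a < P.e i.2) (had : P.G.Adj a i.2)
    (hn : ¬(P.L m).Adj a i.2) : S a = S0 a := by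
  refine res_local h hS hS0 a fun i' hi' => ?_
  apply piecewise_eq_of_notMem
  intro hmem
  obtain ⟨-, h1, h2⟩ := mem_filter.1 hmem
  obtain ⟨k', v'⟩ := i'
  dsimp only at h1 h2 hi'
  subst h1
  obtain ⟨u, hu, htau⟩ := exists_tau (P := P) (r := r) i.1 v'
  have h3 : ¬(P.L ((i.1 : ℕ) + 1)).Adj a i.2 := fun h4 => hn (h.Lmono (show (i.1 : ℕ) + 1 ≤ m by omega) h4)
  have h4 := h.fresh i.1 i.1.2 a i.2 had hlt h3 u (Col.near_mono (by omega) (Col.near_trans h2 hu))
  omega

theorem bad2_prob (h : P.Good δ β r) {err q Cc : ℝ} (i : P.I) (x : P.Om)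
    (hT : P.Tail i.1 q err Cc) (hb : ∑ k ∈ range (P.J + 1), (P.b k : ℝ) ≤ Cc)
    (hz : {z | P.e z < P.e i.2 ∧ P.G.Adj z i.2 ∧ ¬(P.L 0).Adj z i.2}.ncard ≤ 2) :
    ((univ.filter fun z : P.Om => ∃ S, P.IsRes ((P.N i).piecewise z x) S ∧
      P.Bad2 err i ((P.N i).piecewise z x) S).card : ℝ) ≤
      (2 * (P.J + 1) * q) * Fintype.card P.Om := by
  have hCc : 0 ≤ Cc := le_trans (sum_nonneg fun _ _ => Nat.cast_nonneg _) hb
  have hq := tail_nonneg h hT hCc
  obtain ⟨S0, hS0⟩ := exists_res h x
  -- the colours of the adversary `a` which are undecided above the level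
  let Sg : ℕ → V → Finset Z := fun m a =>
    ((range (m + 1)).biUnion (S0 a)).filter fun c => i.2 ∈ P.Ur x c i.1 m
  let cond : ℕ → V → Prop := fun m a => m ≤ P.J ∧ (i.1 : ℕ) < m ∧ P.e a < P.e i.2 ∧
    P.G.Adj a i.2 ∧ ¬(P.L m).Adj a i.2
  let low : ℕ → V → P.Om → Prop := fun m a z =>
    ((P.W i.1 : ℝ) - P.w i.1) / P.W i.1 * (Sg m a).card + err <
      ((Sg m a).filter fun c => P.Und i.1 (P.sd z c i.1) i.2).card
  let ev : ℕ → V → Finset P.Om := fun m a => univ.filter fun z => cond m a ∧ low m a z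
  have hSg : ∀ m a, m ≤ P.J → ((Sg m a).card : ℝ) ≤ Cc := by
    intro m a hm
    refine le_trans ?_ hb
    have h1 : (Sg m a).card ≤ ∑ k ∈ range (m + 1), P.b k := by
      refine (card_filter_le _ _).trans (card_biUnion_le.trans (sum_le_sum fun k _ => ?_))
      rw [hS0 a k]
      exact p2_cut_le _ _
    have h2 : ∑ k ∈ range (m + 1), P.b k ≤ ∑ k ∈ range (P.J + 1), P.b k :=
      sum_le_sum_of_subset (range_subset_range.2 (by omega))
    exact_mod_cast h1.trans h2
  have hev : ∀ m a, ((ev m a).card : ℝ) ≤ q * Fintype.card P.Om := by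
    intro m a
    by_cases hc : cond m a
    · refine tail_marg hT (Sg m a) (fun c η => ¬P.Und i.1 η i.2)
        ((1 - ((P.W i.1 : ℝ) - P.w i.1) / P.W i.1) * (Sg m a).card) (hSg m a hc.1)
        (fun c => univ.filter fun η : V → P.Sd i.1 => ¬P.Und i.1 η i.2)
        (fun c _ η hη => (mem_filter.1 hη).2) ?_ _ (fun z hz =>
        ⟨(Sg m a).filter fun c => ¬P.Und i.1 (P.sd z c i.1) i.2,
          fun c hc' hn => mem_filter.2 ⟨hc', hn⟩, ?_⟩)
      · rw [sum_const, nsmul_eq_mul]
        have h1 := few_und h i.1 i.2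
        have h2 := card_filter_add_card_filter_not (s := (univ : Finset (V → P.Sd i.1)))
          (fun η => P.Und i.1 η i.2)
        rw [card_univ] at h2
        have h3 : ((univ.filter fun η : V → P.Sd i.1 => P.Und i.1 η i.2).card : ℝ) +
            ((univ.filter fun η : V → P.Sd i.1 => ¬P.Und i.1 η i.2).card : ℝ) =
            Fintype.card (V → P.Sd i.1) := by
          exact_mod_cast h2
        have h4 : (1 - ((P.W i.1 : ℝ) - P.w i.1) / P.W i.1) * Fintype.card (V → P.Sd i.1) ≤
            ((univ.filter fun η : V → P.Sd i.1 => ¬P.Und i.1 η i.2).card : ℝ) := by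
          linarith
        have h5 := mul_le_mul_of_nonneg_left h4 (Nat.cast_nonneg (α := ℝ) (Sg m a).card)
        refine le_trans (le_of_eq ?_) h5
        ring
      · have h1 : low m a z := (mem_filter.1 hz).2.2
        have h2 := card_filter_add_card_filter_not (s := Sg m a)
          (fun c => P.Und i.1 (P.sd z c i.1) i.2)
        have h3 : (((Sg m a).filter fun c => P.Und i.1 (P.sd z c i.1) i.2).card : ℝ) +
            (((Sg m a).filter fun c => ¬P.Und i.1 (P.sd z c i.1) i.2).card : ℝ) =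
            (Sg m a).card := by
          exact_mod_cast h2
        have h4 : ((P.W i.1 : ℝ) - P.w i.1) / P.W i.1 * (Sg m a).card + err <
          (((Sg m a).filter fun c => P.Und i.1 (P.sd z c i.1) i.2).card : ℝ) := h1
        linarith
    · have h0 : ev m a = ∅ := by
        rw [filter_eq_empty_iff]
        intro z _ hz
        exact hc hz.1
      rw [h0, card_empty]
      push_cast
      positivity
  have hmem : ∀ m a z, cond m a → low m a z → z ∈ ev m a := fun m a z h1 h2 =>
    mem_filter.2 ⟨mem_univ _, h1, h2⟩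
  -- the adversaries
  set As : Finset V := univ.filter fun a => P.e a < P.e i.2 ∧ P.G.Adj a i.2 ∧
    ¬(P.L 0).Adj a i.2 with hAs
  have hAs2 : As.card ≤ 2 := by
    refine le_trans (le_of_eq ?_) hz
    rw [← Set.ncard_coe_finset]
    congr 1
    ext a
    simp [hAs]
  have hsub : (univ.filter fun z : P.Om => ∃ S, P.IsRes ((P.N i).piecewise z x) S ∧
      P.Bad2 err i ((P.N i).piecewise z x) S) ⊆
      As.biUnion fun a => (range (P.J + 1)).biUnion fun m => ev m a := by
    intro z hz
    obtain ⟨-, S, hS, m, a, hm, him, hlt, had, hn, hbad⟩ := mem_filter.1 hz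
    have hSa : S a = S0 a := p2_res_eq h hS hS0 him hlt had hn
    refine mem_biUnion.2 ⟨a, mem_filter.2 ⟨mem_univ _, hlt, had, fun h0 =>
      hn (h.Lmono (Nat.zero_le m) h0)⟩, mem_biUnion.2 ⟨m, mem_range.2 (by omega), ?_⟩⟩
    refine hmem m a z ⟨hm, him, hlt, had, hn⟩ ?_
    have e1 : (((range (m + 1)).biUnion (S a)).filter fun c =>
        i.2 ∈ P.Ur ((P.N i).piecewise z x) c i.1 m) = Sg m a := by
      rw [hSa]
      apply filter_congr
      intro c _
      rw [ur_pw i z x c le_rfl]
    have hnear : Near (P.L i.1) (P.n i.1) i.2 i.2 := ⟨SimpleGraph.Walk.nil, by simp⟩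
    have e2 : (((range (m + 1)).biUnion (S a)).filter fun c =>
        i.2 ∈ P.Ur ((P.N i).piecewise z x) c i.1 m ∧
          P.Und i.1 (P.sd ((P.N i).piecewise z x) c i.1) i.2) =
        (Sg m a).filter fun c => P.Und i.1 (P.sd z c i.1) i.2 := by
      rw [hSa]
      show _ = (((range (m + 1)).biUnion (S0 a)).filter fun c => i.2 ∈ P.Ur x c i.1 m).filter
        fun c => P.Und i.1 (P.sd z c i.1) i.2
      rw [filter_filter]
      apply filter_congr
      intro c _
      rw [ur_pw i z x c le_rfl, und_pw h i z x c hnear]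
    rw [e1, e2] at hbad
    exact hbad
  have hc1 : ∀ a : V, (((range (P.J + 1)).biUnion fun m => ev m a).card : ℝ) ≤
      (P.J + 1) * (q * Fintype.card P.Om) := by
    intro a
    have h1 : (((range (P.J + 1)).biUnion fun m => ev m a).card : ℝ) ≤
        ∑ m ∈ range (P.J + 1), ((ev m a).card : ℝ) := by
      exact_mod_cast card_biUnion_le
    refine h1.trans ((sum_le_sum fun m _ => hev m a).trans ?_)
    rw [sum_const, nsmul_eq_mul, card_range]
    push_cast
    exact le_rfl
  have h2 : ((As.biUnion fun a => (range (P.J + 1)).biUnion fun m => ev m a).card : ℝ) ≤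
      ∑ a ∈ As, (((range (P.J + 1)).biUnion fun m => ev m a).card : ℝ) := by
    exact_mod_cast card_biUnion_le
  have h3 : ∑ a ∈ As, (((range (P.J + 1)).biUnion fun m => ev m a).card : ℝ) ≤
      ∑ _a ∈ As, ((P.J + 1) * (q * Fintype.card P.Om)) := sum_le_sum fun a _ => hc1 a
  refine (Nat.cast_le.2 (card_le_card hsub)).trans (h2.trans (h3.trans ?_))
  rw [sum_const, nsmul_eq_mul]
  have h4 : (As.card : ℝ) ≤ 2 := by exact_mod_cast hAs2
  have h5 : (0 : ℝ) ≤ (P.J + 1) * (q * Fintype.card P.Om) := by positivity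
  refine (mul_le_mul_of_nonneg_right h4 h5).trans (le_of_eq ?_)
  ring

end Data

end Proc

end DSP
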