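import Pool.Agent.Work.MP_0890ba_co.DS.Pr.PrBase
import Pool.Agent.Work.MP_0890ba_co.DS.Pr.Rec

/-!
# The process: few vertices get too few colours on a level
-/

set_option linter.unusedSectionVars false

namespace DSP

namespace Proc

open Finset Classical BDP BDP.Hub

section hits

variable {V : Type} [Fintype V] [Nonempty V] {A : Type} [Fintype A]
  {B : Type} [Fintype B]

/-- The number of hits of one colour. -/
private lemma card_hit3 {G : SimpleGraph V} {X : (V → A) → Set V} {Φ : Set V → V → Finset B}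
    {v : V} :
    (univ.filter fun η : V → A × B => Far.Hit G X Φ Set.univ η v).card * Fintype.card B =
      ∑ α ∈ univ.filter (fun α : V → A => v ∉ X α),
        (Φ (Col.cmp G (Set.univ \ X α) v) v).card * Fintype.card (V → B) := by
  have h1 : (univ.filter fun η : V → A × B => Far.Hit G X Φ Set.univ η v).card =
      ((univ.filter fun α : V → A => v ∉ X α).sigma fun α =>
        univ.filter fun κ : V → B =>
          κ (Col.lead G (Set.univ \ X α) v) ∈ Φ (Col.cmp G (Set.univ \ X α) v) v).card := by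
    refine card_bij' (fun η _ => ⟨fun w => (η w).1, fun w => (η w).2⟩)
      (fun q _ => fun w => (q.1 w, q.2 w)) ?_ ?_ ?_ ?_
    · intro η hη
      have h := (mem_filter.1 hη).2
      rw [mem_sigma, mem_filter, mem_filter]
      exact ⟨⟨mem_univ _, h.2.1⟩, mem_univ _, h.2.2⟩
    · intro q hq
      rw [mem_sigma, mem_filter, mem_filter] at hq
      rw [mem_filter]
      exact ⟨mem_univ _, Set.mem_univ _, hq.1.2, hq.2.2⟩
    · intro η _
      rfl
    · intro q _
      rfl
  rw [h1, card_sigma, sum_mul]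
  apply sum_congr rfl
  intro α _
  rw [Far.card_value]

/-- The expected number of colours which hit `v`. -/
private lemma sum_hit3 {G : SimpleGraph V} {δ : ℝ} {S ρ : ℕ} {X : (V → A) → Set V}
    (hX : IsScheme G A Set.univ δ S ρ X) {C : Type} {Φ : C → Set V → V → Finset B} {N : ℕ}
    {v : V} {L : Finset C} (hB : 0 < Fintype.card B)
    (hN : ∀ K : Set V, v ∈ K → Conn G K → K.ncard ≤ S → N ≤ ∑ c ∈ L, (Φ c K v).card) :
    ((1 - δ) * N / Fintype.card B) * Fintype.card (V → A × B) ≤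
      ∑ c ∈ L, ((univ.filter fun η : V → A × B =>
        Far.Hit G X (Φ c) Set.univ η v).card : ℝ) := by
  have hM' : (0 : ℝ) < Fintype.card B := by exact_mod_cast hB
  have h2 : (univ.filter fun α : V → A => v ∉ X α).card * (N * Fintype.card (V → B)) ≤
      (∑ c ∈ L, (univ.filter fun η : V → A × B => Far.Hit G X (Φ c) Set.univ η v).card) *
        Fintype.card B := by
    rw [sum_mul, sum_congr rfl fun c _ => card_hit3, sum_comm, ← smul_eq_mul, ← sum_const]
    apply sum_le_sum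
    intro α hα
    rw [← sum_mul]
    refine Nat.mul_le_mul_right _ (hN _ (Col.self_mem_cmp G _ v) (Col.conn_cmp G _ v) ?_)
    apply hX.frag α _ (Col.conn_cmp G _ v) (Set.subset_univ _)
    rw [Set.disjoint_left]
    intro w hw
    exact (Col.cmp_subset (show v ∈ Set.univ \ X α from
      ⟨Set.mem_univ _, (mem_filter.1 hα).2⟩) hw).2
  have h3 : (1 - δ) * Fintype.card (V → A) ≤
      ((univ.filter fun α : V → A => v ∉ X α).card : ℝ) := by
    have h4 := hX.prob v
    have h5 : ({ω : V → A | v ∈ X ω} : Set (V → A)) =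
        ((univ.filter fun α : V → A => v ∈ X α : Finset (V → A)) : Set (V → A)) := by
      ext ω; simp
    rw [h5, Set.ncard_coe_finset] at h4
    have h6 := card_filter_add_card_filter_not (s := (univ : Finset (V → A)))
      (fun α => v ∈ X α)
    rw [card_univ] at h6
    have h7 : ((univ.filter fun α : V → A => v ∈ X α).card : ℝ) +
        ((univ.filter fun α : V → A => v ∉ X α).card : ℝ) = Fintype.card (V → A) := by
      exact_mod_cast h6
    linarith
  have h8 : ((univ.filter fun α : V → A => v ∉ X α).card : ℝ) * (N * Fintype.card (V → B)) ≤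
      (∑ c ∈ L, ((univ.filter fun η : V → A × B =>
        Far.Hit G X (Φ c) Set.univ η v).card : ℝ)) * Fintype.card B := by
    exact_mod_cast h2
  have h9 : (Fintype.card (V → A × B) : ℝ) =
      Fintype.card (V → A) * Fintype.card (V → B) := by
    have : Fintype.card (V → A × B) = Fintype.card (V → A) * Fintype.card (V → B) := by
      rw [Fintype.card_fun, Fintype.card_fun, Fintype.card_fun, Fintype.card_prod, mul_pow]
    exact_mod_cast this
  rw [h9, div_mul_eq_mul_div, div_le_iff₀ hM']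
  refine le_trans ?_ h8
  have h10 : (0 : ℝ) ≤ N * Fintype.card (V → B) := by positivity
  calc (1 - δ) * N * (Fintype.card (V → A) * Fintype.card (V → B)) =
        ((1 - δ) * Fintype.card (V → A)) * (N * Fintype.card (V → B)) := by ring
    _ ≤ _ := mul_le_mul_of_nonneg_right h3 h10

end hits

variable {V Z : Type} [Fintype V] [Nonempty V] [Fintype Z]

namespace Data

variable {P : Data V Z} {δ : ℕ → ℝ} {β r : ℕ → ℕ}

/-- The result for earlier vertices depends on the earlier seeds. -/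
private def ResLoc (P : Data V Z) (r : ℕ → ℕ) : Prop :=
  ∀ {x x' : P.Om} {S S' : V → ℕ → Finset Z}, P.IsRes x S → P.IsRes x' S' → ∀ z : V,
    (∀ i : P.I, P.tau r i.1 i.2 ≤ P.e z → x i = x' i) → S z = S' z

/-- The sets of the adversaries of the clusters near `i` do not depend on the seeds near `i`. -/
private lemma adv_res (h : P.Good δ β r) (hl : ResLoc P r) {i : P.I} {x x' : P.Om}
    {S S' : V → ℕ → Finset Z} (hS : P.IsRes x S) (hS' : P.IsRes x' S')
    (hx : ∀ i' ∉ P.N i, x i' = x' i') {K : Set V} (hK : Conn (P.L i.1) K)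
    (hKn : K.ncard ≤ P.n i.1) (hKD : Disjoint K (P.D i.1)) (hiK : i.2 ∈ K) {z : V}
    (hz : z ∈ P.adv i.1 K) : S z = S' z := by
  obtain ⟨-, w, hwK, hzw, hadj, hL⟩ := mem_filter.1 hz
  have hclu := h.clu i.1 i.1.2 K hK hKn hKD
  have hL' := hclu.2.2.2 z hz w hwK hadj
  have hfr := h.fresh i.1 i.1.2 z w hadj hzw hL'
  refine hl hS hS' z fun i' hi' => hx i' fun hmem => ?_
  obtain ⟨-, h1, h2⟩ := mem_filter.1 hmem
  have hnear : Near (P.L i.1) (P.n i.1) w i.2 := hK.near (Set.toFinite _) hKn hwK hiK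
  have h3 : P.e z < P.tau r i'.1 i'.2 := by
    unfold tau
    rw [Finset.lt_inf'_iff]
    intro u hu
    have hu' := (mem_filter.1 hu).2
    rw [h1] at hu'
    refine hfr u (Near.mono ((hnear.trans h2).trans hu') ?_)
    unfold rad
    omega
  omega

/-- The cluster of a vertex. -/
private lemma clus_facts {i : P.I} (hD : i.2 ∉ P.D i.1) {C : Set V} (hC : C.ncard ≤ P.n i.1)
    (hiC : i.2 ∈ C) : Conn (P.L i.1) (P.clus i.1 C i.2) ∧ (P.clus i.1 C i.2).ncard ≤ P.n i.1 ∧
      Disjoint (P.clus i.1 C i.2) (P.D i.1) ∧ i.2 ∈ P.clus i.1 C i.2 := by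
  have h1 : P.clus i.1 C i.2 ⊆ C \ P.D i.1 := cmp_subset ⟨hiC, hD⟩
  refine ⟨conn_cmp _ _, ?_, ?_, mem_cmp_self _ _⟩
  · exact (Set.ncard_le_ncard (h1.trans Set.sdiff_subset) (Set.toFinite _)).trans hC
  · exact Set.disjoint_left.2 fun a ha haD => (h1 ha).2 haD

/-- The lists of a cluster do not depend on the seeds near it. -/
private lemma lists_eq (h : P.Good δ β r) (hl : ResLoc P r) {i : P.I} {x z : P.Om}
    {S S' : V → ℕ → Finset Z} (hS : P.IsRes ((P.N i).piecewise z x) S) (hS' : P.IsRes x S')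
    (hD : i.2 ∉ P.D i.1) {C : Set V} (hC : C.ncard ≤ P.n i.1) (hiC : i.2 ∈ C) :
    P.lists ((P.N i).piecewise z x) S i.1 C (P.clus i.1 C i.2) =
      P.lists x S' i.1 C (P.clus i.1 C i.2) := by
  obtain ⟨h1, h2, h3, h4⟩ := clus_facts hD hC hiC
  funext v
  unfold lists
  have h5 : ∀ z' ∈ (P.adv i.1 (P.clus i.1 C i.2)).filter fun z' => P.G.Adj z' v,
      (range P.J).biUnion (S z') = (range P.J).biUnion (S' z') := by
    intro z' hz'
    rw [adv_res h hl hS hS' (fun i' hi' => piecewise_eq_of_notMem _ _ _ hi') h1 h2 h3 h4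
      (mem_filter.1 hz').1]
  rw [biUnion_congr rfl h5]
  simp only [ur_pw i z x _ le_rfl]

/-- The seeds which give a colour do not depend on the seeds near `i`. -/
private lemma tic_eq (h : P.Good δ β r) (hl : ResLoc P r) {i : P.I} {x z : P.Om}
    {S S' : V → ℕ → Finset Z} (hS : P.IsRes ((P.N i).piecewise z x) S) (hS' : P.IsRes x S')
    (hD : i.2 ∉ P.D i.1) {C : Set V} (hC : C.ncard ≤ P.n i.1) (hiC : i.2 ∈ C) (c : Z) :
    P.tic ((P.N i).piecewise z x) S i.1 c C i.2 = P.tic x S' i.1 c C i.2 := by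
  unfold tic
  rw [lists_eq h hl hS hS' hD hC hiC]
  simp only [ur_pw i z x _ le_rfl]

private lemma hit_congr {k : ℕ} (hk : k < P.J) (h : P.Good δ β r)
    {Φ Φ' : Set V → V → Finset (P.B k)} {v : V}
    (hΦ : ∀ C : Set V, Conn (P.L k) C → C.ncard ≤ P.n k → v ∈ C → Φ C v = Φ' C v)
    {η : V → P.Sd k} (hh : Far.Hit (P.L k) (P.X k) Φ Set.univ η v) :
    Far.Hit (P.L k) (P.X k) Φ' Set.univ η v := by
  refine ⟨hh.1, hh.2.1, ?_⟩
  have h1 := hh.2.2
  rw [hΦ _ (Col.conn_cmp _ _ _) ?_ (Col.self_mem_cmp _ _ _)] at h1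
  · exact h1
  · refine (h.sch k hk).frag (fun w => (η w).1) _ (Col.conn_cmp _ _ _) (Set.subset_univ _) ?_
    rw [Set.disjoint_left]
    intro w hw
    exact (Col.cmp_subset (show v ∈ Set.univ \ P.X k (fun w => (η w).1) from
      ⟨Set.mem_univ _, hh.2.1⟩) hw).2

/-- The colours of `i` depend on the seeds near `i` in a simple way. -/
private lemma tick_eq (h : P.Good δ β r) (hl : ResLoc P r) {i : P.I} {x z : P.Om}
    {S S' : V → ℕ → Finset Z} (hS : P.IsRes ((P.N i).piecewise z x) S) (hS' : P.IsRes x S')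
    (hD : i.2 ∉ P.D i.1) :
    (P.l i.2).filter (fun c => Far.Hit (P.L i.1) (P.X i.1) (P.tic x S' i.1 c) Set.univ
      (fun v => z (i.1, v) c) i.2) ⊆ P.tick ((P.N i).piecewise z x) S i.1 i.2 := by
  intro c hc
  obtain ⟨hc1, hc2⟩ := mem_filter.1 hc
  unfold tick
  rw [dif_pos i.1.2, mem_filter]
  refine ⟨hc1, ?_⟩
  have h1 : Far.Hit (P.L i.1) (P.X i.1) (P.tic ((P.N i).piecewise z x) S i.1 c) Set.univ
      (fun v => z (i.1, v) c) i.2 :=
    hit_congr i.1.2 h (fun C _ hCn hiC => (tic_eq h hl hS hS' hD hCn hiC c).symm) hc2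
  refine Far.hit_local (h.sch i.1 i.1.2) (fun w hw => ?_) h1
  show z (i.1, w) c = (P.N i).piecewise z x (i.1, w) c
  rw [pw_mem]
  refine hw.mono ?_
  unfold rad
  omega

/-- A good environment has many seeds for the colours. -/
private lemma many_seeds (h : P.Good δ β r) {i : P.I} {x : P.Om} {S : V → ℕ → Finset Z}
    (hD : i.2 ∉ P.D i.1) (hE : P.EnvGood β i x S) {C : Set V} (hC : Conn (P.L i.1) C)
    (hCn : C.ncard ≤ P.n i.1) (hiC : i.2 ∈ C) :
    P.w i.1 * (⌈P.rho * P.nT (P.n i.1) * β i.1⌉₊) ≤ ∑ c ∈ P.l i.2, (P.tic x S i.1 c C i.2).card := by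
  obtain ⟨h1, h2, h3, h4⟩ := clus_facts hD hCn hiC
  set K := P.clus i.1 C i.2 with hK
  set Q : Fin (P.nT (P.n i.1)) → Finset Z :=
    fun ω => P.law i.1 K (P.adv i.1 K) (P.lists x S i.1 C K) ω i.2 with hQ
  obtain ⟨c1, c2, c3, -⟩ := h.clu i.1 i.1.2 K h1 h2 h3
  have hmany : ⌈P.rho * P.nT (P.n i.1) * β i.1⌉₊ ≤ ∑ ω, (Q ω).card :=
    Nat.ceil_le.2 (h.law_many i.1 K (P.adv i.1 K) (P.lists x S i.1 C K) c1
      (fun v hv hv' => lt_irrefl _ (c2 v hv' v hv)) c3 h2 (fun v hv => hE C hC hCn hiC v hv)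
      i.2 h4)
  have hQl : ∀ ω, Q ω ⊆ (P.l i.2).filter fun c => C ⊆ P.Ur x c i.1 P.J := by
    intro ω c hc
    have h5 := h.law_sub i.1 K (P.adv i.1 K) (P.lists x S i.1 C K) ω i.2 h4 hc
    unfold lists at h5
    rw [if_pos h4] at h5
    exact (mem_sdiff.1 h5).1
  have hdec : P.dec i.1 = (univ.filter fun a : Fin (P.W i.1) => (a : ℕ) < P.w i.1) ×ˢ
      (univ : Finset (Fin (P.nT (P.n i.1)))) := by
    ext b
    rw [dec, mem_filter, mem_product, mem_filter]
    simp
  have hw : (univ.filter fun a : Fin (P.W i.1) => (a : ℕ) < P.w i.1).card = P.w i.1 := by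
    rw [Fin.card_filter_val_lt]
    exact min_eq_right (w_le_W h _)
  calc P.w i.1 * (⌈P.rho * P.nT (P.n i.1) * β i.1⌉₊) ≤ P.w i.1 * ∑ ω, (Q ω).card :=
        Nat.mul_le_mul_left _ hmany
    _ = ∑ b ∈ P.dec i.1, (Q b.2).card := by
        rw [hdec, sum_product]
        show _ = ∑ _a ∈ univ.filter fun a : Fin (P.W i.1) => (a : ℕ) < P.w i.1, ∑ ω, (Q ω).card
        rw [sum_const, hw, smul_eq_mul]
    _ ≤ ∑ b ∈ P.dec i.1, ((P.l i.2).filter fun c => c ∈ Q b.2).card := by
        refine sum_le_sum fun b _ => card_le_card fun c hc => mem_filter.2 ⟨?_, hc⟩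
        exact (mem_filter.1 (hQl _ hc)).1
    _ = ∑ c ∈ P.l i.2, ((P.dec i.1).filter fun b => c ∈ Q b.2).card := by
        simp only [card_filter]
        rw [sum_comm]
    _ ≤ ∑ c ∈ P.l i.2, (P.tic x S i.1 c C i.2).card := by
        refine sum_le_sum fun c _ => card_le_card fun b hb => ?_
        obtain ⟨hb1, hb2⟩ := mem_filter.1 hb
        unfold tic
        rw [if_pos ⟨hD, (mem_filter.1 (hQl _ hb2)).2⟩]
        exact mem_filter.2 ⟨hb1, hb2⟩

private theorem bad3_aux (h : P.Good δ β r) (hl' : ResLoc P r) (hex : ∀ x : P.Om, ∃ S, P.IsRes x S)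
    {q Cc t : ℝ} (i : P.I) (x : P.Om)
    (hT : P.Tail i.1 q t Cc) (hl : ∀ v, ((P.l v).card : ℝ) ≤ Cc) (hδ1 : δ i.1 ≤ 1)
    (hβ : (P.b i.1 : ℝ) + t ≤
      (1 - δ i.1) * ((P.w i.1 : ℝ) / P.W i.1) * P.rho * β i.1) :
    ((univ.filter fun z : P.Om => ∃ S, P.IsRes ((P.N i).piecewise z x) S ∧
      P.Bad3 β i ((P.N i).piecewise z x) S).card : ℝ) ≤ q * Fintype.card P.Om := by
  obtain ⟨S₀, hS₀⟩ := hex x
  by_cases hgood : i.2 ∉ P.D i.1 ∧ P.EnvGood β i x S₀
  · obtain ⟨hD, hE⟩ := hgood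
    set s : ℝ := (1 - δ i.1) * (P.w i.1 * (⌈P.rho * P.nT (P.n i.1) * β i.1⌉₊) : ℕ) /
      Fintype.card (P.B i.1) with hs
    have hBpos := card_B_pos h i.1
    have hs' : (P.b i.1 : ℝ) + t ≤ s := by
      refine hβ.trans ?_
      have hW : (0 : ℝ) < P.W i.1 := by exact_mod_cast W_pos h i.1
      have hn : (0 : ℝ) < P.nT (P.n i.1) := by exact_mod_cast h.nT_pos _
      have hg : P.rho * P.nT (P.n i.1) * β i.1 ≤ (⌈P.rho * P.nT (P.n i.1) * β i.1⌉₊ : ℝ) :=
        Nat.le_ceil _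
      rw [hs, card_B, le_div_iff₀ (by exact_mod_cast mul_pos (W_pos h i.1) (h.nT_pos _))]
      push_cast
      have e1 : (1 - δ i.1) * ((P.w i.1 : ℝ) / P.W i.1) * P.rho * β i.1 *
          (P.W i.1 * P.nT (P.n i.1)) =
          (1 - δ i.1) * (P.w i.1 * (P.rho * P.nT (P.n i.1) * β i.1)) := by
        field_simp
      rw [e1]
      exact mul_le_mul_of_nonneg_left (mul_le_mul_of_nonneg_left hg (Nat.cast_nonneg _))
        (by linarith)
    have hmean := sum_hit3 (h.sch i.1 i.1.2) (C := Z) (Φ := fun c => P.tic x S₀ i.1 c)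
      (N := P.w i.1 * (⌈P.rho * P.nT (P.n i.1) * β i.1⌉₊)) (v := i.2) (L := P.l i.2)
      (by exact_mod_cast hBpos) (fun K hK hKc hKn => many_seeds h hD hE hKc hKn hK)
    have htail := hT (P.l i.2) (fun c η => Far.Hit (P.L i.1) (P.X i.1) (P.tic x S₀ i.1 c)
      Set.univ η i.2) s (hl i.2) hmean
    have hmarg := marg i.1 (fun om : V → Z → P.Sd i.1 =>
      (((P.l i.2).filter fun c => Far.Hit (P.L i.1) (P.X i.1) (P.tic x S₀ i.1 c)
      Set.univ (fun v => om v c) i.2).card : ℝ) + t < s) htail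
    refine le_trans ?_ hmarg
    refine Nat.cast_le.2 (card_le_card fun z hz => mem_filter.2 ⟨mem_univ _, ?_⟩)
    obtain ⟨S, hS, -, -, hbad⟩ := (mem_filter.1 hz).2
    have h1 := card_le_card (tick_eq h hl' hS hS₀ hD)
    have h2 : (((P.l i.2).filter fun c => Far.Hit (P.L i.1) (P.X i.1) (P.tic x S₀ i.1 c)
      Set.univ (fun v => z (i.1, v) c) i.2).card : ℝ) < P.b i.1 := by
      exact_mod_cast lt_of_le_of_lt h1 hbad
    linarith
  · have h0 : (univ.filter fun z : P.Om => ∃ S, P.IsRes ((P.N i).piecewise z x) S ∧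
        P.Bad3 β i ((P.N i).piecewise z x) S) = ∅ := by
      rw [filter_eq_empty_iff]
      rintro z - ⟨S, hS, hD, hE, -⟩
      refine hgood ⟨hD, fun C hC hCn hiC y hy => ?_⟩
      rw [← lists_eq h hl' hS hS₀ hD hCn hiC]
      exact hE C hC hCn hiC y hy
    rw [h0, card_empty, Nat.cast_zero]
    have h1 := hT ∅ (fun _ _ => False) 0 (by
      rw [card_empty, Nat.cast_zero]
      exact le_trans (Nat.cast_nonneg _) (hl i.2)) (by simp)
    have h2 : (0 : ℝ) ≤ q * Fintype.card (V → Z → P.Sd i.1) := le_trans (Nat.cast_nonneg _) h1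
    have h3 := marg i.1 (fun _ : V → Z → P.Sd i.1 => False) (q := q) (by simpa using h2)
    exact le_trans (Nat.cast_nonneg _) h3

/-- Few vertices get too few colours on a level. -/
theorem bad3_prob (h : P.Good δ β r) {q Cc t : ℝ} (i : P.I) (x : P.Om)
    (hT : P.Tail i.1 q t Cc) (hl : ∀ v, ((P.l v).card : ℝ) ≤ Cc) (hδ1 : δ i.1 ≤ 1)
    (hβ : (P.b i.1 : ℝ) + t ≤
      (1 - δ i.1) * ((P.w i.1 : ℝ) / P.W i.1) * P.rho * β i.1) :
    ((univ.filter fun z : P.Om => ∃ S, P.IsRes ((P.N i).piecewise z x) S ∧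
      P.Bad3 β i ((P.N i).piecewise z x) S).card : ℝ) ≤ q * Fintype.card P.Om :=
  bad3_aux h (fun hS hS' z hx => res_local h hS hS' z hx) (fun x => exists_res h x) i x hT hl hδ1 hβ

end Data

end Proc

end DSP
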