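import Pool.Agent.Work.MP_0890ba_co.DS.Pr.Proper
import Pool.Agent.Work.MP_0890ba_co.DS.Pr.Env
import Pool.Agent.Work.MP_0890ba_co.DS.Pr.Loc
import Pool.Agent.Work.MP_0890ba_co.DS.Pr.Pr1
import Pool.Agent.Work.MP_0890ba_co.DS.Pr.Pr2
import Pool.Agent.Work.MP_0890ba_co.DS.Pr.Pr3
import Pool.Agent.Work.MP_0890ba_co.BD.Seq

/-!
# The assembly: all bad events can be avoided
-/

set_option linter.unusedSectionVars false

namespace DSP

namespace Proc

open Finset Classical BDP BDP.Hub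

variable {V Z : Type} [Fintype V] [Nonempty V] [Fintype Z]

namespace Data

variable {P : Data V Z} {δ : ℕ → ℝ} {β r : ℕ → ℕ}

/-- The number of variables which matter. -/
lemma card_N {B : ℕ} (hB : ∀ k < P.J, ∀ v, (univ.filter fun y => Near (P.L k) (P.rad k) v y).card ≤ B)
    (i : P.I) : (P.N i).card ≤ B := by
  refine le_trans ?_ (hB i.1 i.1.2 i.2)
  refine card_le_card_of_injOn Prod.snd ?_ ?_
  · intro i' hi'
    have h1 := (mem_filter.1 (mem_coe.1 hi')).2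
    exact mem_coe.2 (mem_filter.2 ⟨mem_univ _, h1.2⟩)
  · intro i' hi' i'' hi'' h2
    have h1 := (mem_filter.1 (mem_coe.1 hi')).2.1
    have h3 := (mem_filter.1 (mem_coe.1 hi'')).2.1
    exact Prod.ext (h1.trans h3.symm) h2

lemma card_N' {B : ℕ} (hB : ∀ k < P.J, ∀ v, (univ.filter fun y => Near (P.L k) (P.rad k) v y).card ≤ B)
    (i : P.I) : (univ.filter fun i' => i ∈ P.N i').card ≤ B := by
  refine le_trans ?_ (hB i.1 i.1.2 i.2)
  refine card_le_card_of_injOn Prod.snd ?_ ?_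
  · intro i' hi'
    have h1 := (mem_filter.1 (mem_filter.1 (mem_coe.1 hi')).2).2
    refine mem_coe.2 (mem_filter.2 ⟨mem_univ _, ?_⟩)
    have h2 := h1.2
    rw [← h1.1] at h2
    exact h2.symm
  · intro i' hi' i'' hi'' h2
    have h1 := (mem_filter.1 (mem_filter.1 (mem_coe.1 hi')).2).2.1
    have h3 := (mem_filter.1 (mem_filter.1 (mem_coe.1 hi'')).2).2.1
    exact Prod.ext (h1.symm.trans h3) h2

/-- The bad event of a variable. -/
def Bad (P : Data V Z) (ε err : ℝ) (β : ℕ → ℕ) (i : P.I) (x : P.Om) : Prop :=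
  P.Bad1 ε err i x ∨ ∃ S, P.IsRes x S ∧ (P.Bad2 err i x S ∨ P.Bad3 β i x S)

/-- THE CORE: the process can be fixed such that every vertex gets enough colours. -/
theorem core (h : P.Good δ β r) (he : Function.Injective P.e) (hun : ∀ w, {z | P.e z < P.e w ∧ P.G.Adj z w ∧
      ¬(P.L 0).Adj z w}.ncard ≤ 2)
    (hdr : ∀ (w : V) (s : Finset ℕ), (∀ k ∈ s, w ∈ P.D k) → s.card ≤ 2)
    {ε err q Cc : ℝ} {B bb : ℕ} (hε0 : 0 ≤ ε) (hε1 : ε ≤ 1) (herr : 0 ≤ err) (hq0 : 0 ≤ q)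
    (hB : ∀ k < P.J, ∀ v, (univ.filter fun y => Near (P.L k) (P.rad k) v y).card ≤ B)
    (hq : ((2 : ℝ) ^ B * P.J * q + 2 * (P.J + 1) * q + q) * ((B : ℝ) + 1) ^ B < 1)
    (hT : ∀ k < P.J, P.Tail k q err Cc) (hl : ∀ v, ((P.l v).card : ℝ) ≤ Cc)
    (hbC : ∑ k ∈ range (P.J + 1), (P.b k : ℝ) ≤ Cc)
    (hδ1 : ∀ k < P.J, δ k ≤ ε) (hδ : ∀ k < P.J, ∀ j < k, (P.n j : ℝ) * δ k ≤ ε)
    {a : ℝ} (ha : ∀ v, a ≤ ((P.l v).card : ℝ)) {Alo : ℕ → ℝ} {Uhi : ℕ → ℕ → ℝ}
    (hA0 : Alo (P.J - 1) ≤ a)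
    (hA : ∀ k, k + 1 < P.J → Alo k + err ≤
      (((P.W (k + 1) : ℝ) - P.w (k + 1)) / P.W (k + 1) * (1 - ε)) * Alo (k + 1))
    (hU0 : ∀ m, 1 ≤ m → m ≤ P.J → (∑ i ∈ range (m + 1), (P.b i : ℝ)) ≤ Uhi m (m - 1))
    (hU : ∀ m k, m ≤ P.J → k + 1 < m →
      ((P.W (k + 1) : ℝ) - P.w (k + 1)) / P.W (k + 1) * Uhi m (k + 1) + err ≤ Uhi m k)
    (hβ1 : ∀ k < P.J, 5 * (β k : ℝ) ≤ Alo k)
    (hβ2 : ∀ k m, k < m → m ≤ P.J → 3 * (β k : ℝ) + 2 * Uhi m k ≤ Alo k)
    (hβ3 : ∀ k < P.J, (P.b k : ℝ) + err ≤ (1 - ε) * ((P.w k : ℝ) / P.W k) * P.rho * β k)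
    (hb : ∀ s : Finset ℕ, s.card ≤ 2 → bb ≤ ∑ i ∈ range P.J \ s, P.b i) :
    ∃ S : V → Finset Z, (∀ v, S v ⊆ P.l v ∧ bb ≤ (S v).card) ∧
      ∀ u v, P.G.Adj u v → Disjoint (S u) (S v) := by
  have hne : ∀ k, Nonempty (P.Sd k) := fun k => by
    have h1 : 0 < P.rr k := h.rr_pos k
    have h2 : 0 < P.W k := W_pos h k
    have h3 : 0 < P.nT (P.n k) := h.nT_pos _
    have : Nonempty (Fin (P.rr k)) := ⟨⟨0, h1⟩⟩
    have : Nonempty (Fin (P.W k)) := ⟨⟨0, h2⟩⟩
    have : Nonempty (Fin (P.nT (P.n k))) := ⟨⟨0, h3⟩⟩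
    infer_instance
  have hne' : ∀ i : P.I, Nonempty (Z → P.Sd i.1) := fun i => by
    have := hne i.1
    infer_instance
  obtain ⟨x, hx⟩ := Seq.seq_fix (fun i x => P.Bad ε err β i x) P.N (P.Env r) (P.tm r)
    (fun i i' hi' i'' hi'' => (mem_filter.1 hi').2 i'' hi'')
    (by
      intro i x y hN hE hb
      rcases hb with hb | ⟨S, hS, hb⟩
      · exact Or.inl (bad1_local h hN hE hb)
      · obtain ⟨S', hS'⟩ := exists_res h y
        refine Or.inr ⟨S', hS', ?_⟩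
        rcases hb with hb | hb
        · exact Or.inl (bad2_local h hS hS' hN hE hb)
        · exact Or.inr (bad3_local h hS hS' hN hE hb))
    (q := (2 : ℝ) ^ B * P.J * q + 2 * (P.J + 1) * q + q) (by positivity)
    (by
      intro i x
      have h1 := bad1_prob h (ε := ε) i x (hT i.1 i.1.2) hl (hδ i.1 i.1.2)
      have h2 := bad2_prob h i x (hT i.1 i.1.2) hbC (hun i.2)
      have h3 := bad3_prob h (β := β) i x (hT i.1 i.1.2) hl ((hδ1 i.1 i.1.2).trans hε1) (by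
        refine (hβ3 i.1 i.1.2).trans ?_
        have h4 := hδ1 i.1 i.1.2
        have h5 : (0 : ℝ) ≤ (P.w i.1 : ℝ) / P.W i.1 := by positivity
        have h6 : (0 : ℝ) ≤ (β i.1 : ℝ) := by positivity
        have h7 : (1 - ε) * ((P.w i.1 : ℝ) / P.W i.1) ≤ (1 - δ i.1) * ((P.w i.1 : ℝ) / P.W i.1) :=
          mul_le_mul_of_nonneg_right (by linarith) h5
        have h8 : (1 - ε) * ((P.w i.1 : ℝ) / P.W i.1) * P.rho ≤
            (1 - δ i.1) * ((P.w i.1 : ℝ) / P.W i.1) * P.rho :=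
          mul_le_mul_of_nonneg_right h7 h.rho_pos.le
        exact mul_le_mul_of_nonneg_right h8 h6)
      have h9 : (univ.filter fun z : P.Om => P.Bad ε err β i ((P.N i).piecewise z x)) ⊆
          (univ.filter fun z : P.Om => P.Bad1 ε err i ((P.N i).piecewise z x)) ∪
          ((univ.filter fun z : P.Om => ∃ S, P.IsRes ((P.N i).piecewise z x) S ∧
            P.Bad2 err i ((P.N i).piecewise z x) S) ∪
          (univ.filter fun z : P.Om => ∃ S, P.IsRes ((P.N i).piecewise z x) S ∧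
            P.Bad3 β i ((P.N i).piecewise z x) S)) := by
        intro z hz
        rw [mem_union, mem_union, mem_filter, mem_filter, mem_filter]
        rcases (mem_filter.1 hz).2 with hb | ⟨S, hS, hb | hb⟩
        · exact Or.inl ⟨mem_univ _, hb⟩
        · exact Or.inr (Or.inl ⟨mem_univ _, S, hS, hb⟩)
        · exact Or.inr (Or.inr ⟨mem_univ _, S, hS, hb⟩)
      have h10 := (card_le_card h9).trans ((card_union_le _ _).trans
        (Nat.add_le_add_left (card_union_le _ _) _))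
      have h11 : ((univ.filter fun z : P.Om =>
          P.Bad ε err β i ((P.N i).piecewise z x)).card : ℝ) ≤
          ((univ.filter fun z : P.Om => P.Bad1 ε err i ((P.N i).piecewise z x)).card : ℝ) +
          (((univ.filter fun z : P.Om => ∃ S, P.IsRes ((P.N i).piecewise z x) S ∧
            P.Bad2 err i ((P.N i).piecewise z x) S).card : ℝ) +
          ((univ.filter fun z : P.Om => ∃ S, P.IsRes ((P.N i).piecewise z x) S ∧
            P.Bad3 β i ((P.N i).piecewise z x) S).card : ℝ)) := by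
        exact_mod_cast h10
      have h12 : (2 : ℝ) ^ (univ.filter fun y => Near (P.L i.1) (P.rad i.1) i.2 y).card ≤
          2 ^ B := pow_le_pow_right₀ (by norm_num) (hB i.1 i.1.2 i.2)
      have h13 : (2 : ℝ) ^ (univ.filter fun y => Near (P.L i.1) (P.rad i.1) i.2 y).card *
          P.J * q ≤ 2 ^ B * P.J * q :=
        mul_le_mul_of_nonneg_right (mul_le_mul_of_nonneg_right h12 (by positivity)) hq0
      have h14 : (0 : ℝ) ≤ Fintype.card P.Om := by positivity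
      have h15 := mul_le_mul_of_nonneg_right h13 h14
      linarith)
    (k := B) (M := B) (card_N hB) (card_N' hB) hq
  have hx1 : ∀ i, ¬P.Bad1 ε err i x := fun i hb => hx i (Or.inl hb)
  obtain ⟨S, hS⟩ := exists_res h x
  have hx2 : ∀ i, ¬P.Bad2 err i x S := fun i hb => hx i (Or.inr ⟨S, hS, Or.inl hb⟩)
  have hx3 : ∀ i, ¬P.Bad3 β i x S := fun i hb => hx i (Or.inr ⟨S, hS, Or.inr hb⟩)
  have henv := env_good h hS hε0 hε1 herr hx1 hx2 ha hA0 hA hU0 hU hβ1 hβ2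
  have hcard : ∀ k < P.J, ∀ v, v ∉ P.D k → (S v k).card = P.b k := by
    intro k hk v hv
    refine (res_sub hS v k).2.2.2 ?_
    by_contra hcon
    exact hx3 (⟨k, hk⟩, v) ⟨hv, henv (⟨k, hk⟩, v) hv, not_le.1 hcon⟩
  refine ⟨fun v => (range P.J).biUnion (S v), fun v => ⟨?_, ?_⟩, fun u v huv => ?_⟩
  · exact biUnion_subset.2 fun k _ => (res_sub hS v k).2.1
  · rw [card_biUnion (fun i _ j _ hij => level_disj h hS v hij)]
    let s : Finset ℕ := (range P.J).filter fun k => v ∈ P.D k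
    have h1 : s.card ≤ 2 := hdr v s fun k hk => (mem_filter.1 hk).2
    refine (hb s h1).trans ?_
    have h2 : ∑ i ∈ range P.J \ s, P.b i = ∑ i ∈ range P.J \ s, (S v i).card := by
      refine sum_congr rfl fun i hi => ?_
      rw [mem_sdiff, mem_filter] at hi
      refine (hcard i (mem_range.1 hi.1) v fun h3 => hi.2 ⟨hi.1, h3⟩).symm
    rw [h2]
    exact sum_le_sum_of_subset sdiff_subset
  · rw [disjoint_biUnion_left]
    intro i _
    rw [disjoint_biUnion_right]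
    exact fun j _ => proper h he hS huv i j

end Data

end Proc

end DSP
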