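import Pool.Agent.Work.MP_0890ba_co.DS.Pr.Proper

/-!
# Locality of the third bad event
-/

set_option linter.unusedSectionVars false

namespace DSP

namespace Proc

open Finset Classical BDP BDP.Hub

variable {V Z : Type} [Fintype V] [Nonempty V] [Fintype Z]

namespace Data

variable {P : Data V Z} {δ : ℕ → ℝ} {β r : ℕ → ℕ}

/-- The radii leave room for all levels above. -/
private lemma r_step (h : P.Good δ β r) {k j : ℕ} (hkj : k < j) :
    r k + P.rad k + P.rad j ≤ r j := by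
  induction j with
  | zero => omega
  | succ j ih =>
    rcases Nat.lt_succ_iff_lt_or_eq.1 hkj with h1 | rfl
    · have h2 := ih h1
      have h3 := h.r_succ j
      omega
    · exact h.r_succ k

private lemma exists_tau (k : ℕ) (v : V) : ∃ u, Near (P.L k) (r k) v u ∧
    P.tau r k v = P.e u := by
  obtain ⟨u, hu, he⟩ := exists_mem_eq_inf' (s := univ.filter fun u => Near (P.L k) (r k) v u)
    ⟨v, by
      rw [mem_filter]
      exact ⟨mem_univ _, .nil, by simp⟩⟩ P.e
  exact ⟨u, (mem_filter.1 hu).2, he⟩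

private lemma tau_le {k : ℕ} {v u : V} (h : Near (P.L k) (r k) v u) : P.tau r k v ≤ P.e u :=
  inf'_le _ (mem_filter.2 ⟨mem_univ _, h⟩)

private lemma tm_lt {i i' : P.I} (h : P.tau r i'.1 i'.2 ≤ P.tau r i.1 i.2)
    (hlt : (i.1 : ℕ) < i'.1) : P.tm r i' < P.tm r i := by
  unfold tm
  have h1 := i'.1.2
  have h2 := Nat.mul_le_mul_right P.J h
  omega

private lemma tm_lt' {i i' : P.I} (h : P.tau r i'.1 i'.2 < P.tau r i.1 i.2) :
    P.tm r i' < P.tm r i := by
  unfold tm
  have h1 := i'.1.2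
  have h2 := Nat.mul_le_mul_right P.J (Nat.succ_le_of_lt h)
  rw [Nat.succ_mul] at h2
  omega

/-- The seeds of the levels above near a vertex are revealed earlier. -/
private lemma env_up (h : P.Good δ β r) {i i' : P.I} (hlt : (i.1 : ℕ) < i'.1)
    (hn : Near (P.L i'.1) (P.rad i'.1) i.2 i'.2) : i' ∈ P.Env r i := by
  refine mem_filter.2 ⟨mem_univ _, ?_⟩
  rintro ⟨k, w⟩ hi
  obtain ⟨-, hk, hw⟩ := mem_filter.1 hi
  change k = i.1 at hk
  change Near (P.L i.1) (P.rad i.1) i.2 w at hw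
  subst hk
  obtain ⟨u, hu, he⟩ := exists_tau (P := P) (r := r) i.1 w
  refine tm_lt (i := (i.1, w)) ?_ hlt
  change P.tau r i'.1 i'.2 ≤ P.tau r i.1 w
  rw [he]
  refine tau_le ?_
  have h1 : Near (P.L i'.1) (P.rad i.1 + r i.1) i.2 u :=
    Near.of_le (h.Lmono hlt.le) (hw.trans hu)
  exact (hn.symm.trans h1).mono (by have := r_step h hlt; omega)

/-- The seeds which are revealed before all vertices near `i.2` are revealed earlier. -/
private lemma env_tau {i i' : P.I} {t : ℕ}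
    (ht : ∀ u, Near (P.L i.1) (r i.1 + P.rad i.1) i.2 u → t < P.e u)
    (hi' : P.tau r i'.1 i'.2 ≤ t) : i' ∈ P.Env r i := by
  refine mem_filter.2 ⟨mem_univ _, ?_⟩
  rintro ⟨k, w⟩ hi
  obtain ⟨-, hk, hw⟩ := mem_filter.1 hi
  change k = i.1 at hk
  change Near (P.L i.1) (P.rad i.1) i.2 w at hw
  subst hk
  obtain ⟨u, hu, he⟩ := exists_tau (P := P) (r := r) i.1 w
  refine tm_lt' (i := (i.1, w)) ?_
  change P.tau r i'.1 i'.2 < P.tau r i.1 w
  rw [he]
  exact lt_of_le_of_lt hi' (ht u ((hw.trans hu).mono (by omega)))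

private lemma mem_N {i : P.I} {y : V} (h : Near (P.L i.1) (P.rad i.1) i.2 y) :
    (i.1, y) ∈ P.N i := mem_filter.2 ⟨mem_univ _, rfl, h⟩

/-- Locality of the component and its mark. -/
private lemma comp_local (h : P.Good δ β r) {x x' : P.Om} {c : Z} {k : Fin P.J} {v : V}
    (hx : ∀ y, Near (P.L k) (P.n k + P.ρ k) v y → x (k, y) = x' (k, y))
    (hv : v ∉ P.X k (fun w => (P.sd x c k w).1)) :
    v ∉ P.X k (fun w => (P.sd x' c k w).1) ∧ P.comp x' c k v = P.comp x c k v ∧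
      P.mark x' c k v = P.mark x c k v := by
  let Φ : Set V → V → Finset (P.B k) := fun K _ =>
    if K = P.comp x c k v then {P.mark x c k v} else ∅
  have h1 : Far.Hit (P.L k) (P.X k) Φ Set.univ (P.sd x c k) v := by
    refine ⟨Set.mem_univ _, hv, ?_⟩
    change P.mark x c k v ∈ Φ (P.comp x c k v) v
    simp only [Φ, if_true, mem_singleton]
  have h2 := Far.hit_local (h.sch k k.2) (η' := P.sd x' c k)
    (fun w hw => congrFun (hx w hw) c) h1
  obtain ⟨-, h3, h4⟩ := h2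
  change P.mark x' c k v ∈ Φ (P.comp x' c k v) v at h4
  by_cases h5 : P.comp x' c k v = P.comp x c k v
  · simp only [Φ, h5, if_true, mem_singleton] at h4
    exact ⟨h3, h5, h4⟩
  · simp only [Φ, h5, if_false] at h4
    exact absurd h4 (notMem_empty _)

/-- Locality of being undecided. -/
private lemma und_local (h : P.Good δ β r) {x x' : P.Om} {c : Z} {k : Fin P.J} {v : V}
    (hx : ∀ y, Near (P.L k) (P.n k + P.ρ k) v y → x (k, y) = x' (k, y)) :
    P.Und k (P.sd x c k) v ↔ P.Und k (P.sd x' c k) v :=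
  ⟨fun h1 => Far.hit_local (h.sch k k.2) (fun w hw => congrFun (hx w hw) c) h1,
    fun h1 => Far.hit_local (h.sch k k.2) (fun w hw => congrFun (hx w hw).symm c) h1⟩

private lemma ur_near (h : P.Good δ β r) {x x' : P.Om} {k m : ℕ} {c : Z} {v y : V}
    (hy : Near (P.L k) (P.n k) v y)
    (hx : ∀ i : P.I, k < (i.1 : ℕ) → Near (P.L i.1) (P.rad i.1) v i.2 → x i = x' i) :
    y ∈ P.Ur x c k m ↔ y ∈ P.Ur x' c k m := by
  have h1 : ∀ i : Fin P.J, k < (i : ℕ) → ∀ z, Near (P.L i) (P.n i + P.ρ i) y z →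
      x (i, z) = x' (i, z) := by
    intro i hi z hz
    refine hx (i, z) hi ?_
    have h2 : Near (P.L i) (P.n i) v y :=
      (Near.of_le (h.Lmono hi.le) hy).mono (h.nmono hi.le)
    have h3 : P.n i + (P.n i + P.ρ i) ≤ P.rad i := by unfold rad; omega
    exact (h2.trans hz).mono h3
  constructor
  · exact fun hU i hi hi' => (und_local h (h1 i hi)).1 (hU i hi hi')
  · exact fun hU i hi hi' => (und_local h (h1 i hi)).2 (hU i hi hi')

/-- Locality of the lists. -/
private lemma lists_near (h : P.Good δ β r) {x x' : P.Om} {S S' : V → ℕ → Finset Z}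
    {k : ℕ} {v : V}
    (hx : ∀ i : P.I, k < (i.1 : ℕ) → Near (P.L i.1) (P.rad i.1) v i.2 → x i = x' i)
    {C K : Set V} (hC : ∀ y ∈ C, Near (P.L k) (P.n k) v y)
    (hS : ∀ z ∈ P.adv k K, ∀ y ∈ K, P.G.Adj z y → S z = S' z) :
    P.lists x S k C K = P.lists x' S' k C K := by
  funext y
  unfold lists
  by_cases hy : y ∈ K
  · rw [if_pos hy, if_pos hy]
    have h1 : ((P.l y).filter fun c => C ⊆ P.Ur x c k P.J) =
        (P.l y).filter fun c => C ⊆ P.Ur x' c k P.J := by
      refine filter_congr fun c _ => ?_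
      constructor
      · exact fun h2 w hw => (ur_near h (hC w hw) hx).1 (h2 hw)
      · exact fun h2 w hw => (ur_near h (hC w hw) hx).2 (h2 hw)
    rw [h1]
    congr 1
    refine biUnion_congr rfl fun z hz => ?_
    rw [hS z (mem_filter.1 hz).1 y hy (mem_filter.1 hz).2]
  · rw [if_neg hy, if_neg hy]

/-- Locality of the colours which a vertex gets on one level, one direction. -/
private lemma tick_near (h : P.Good δ β r) {x x' : P.Om} {S S' : V → ℕ → Finset Z}
    {k : Fin P.J} {v : V}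
    (hx0 : ∀ y, Near (P.L k) (P.rad k) v y → x (k, y) = x' (k, y))
    (hx : ∀ i : P.I, (k : ℕ) < (i.1 : ℕ) → Near (P.L i.1) (P.rad i.1) v i.2 → x i = x' i)
    (hS : ∀ C, Conn (P.L k) C → C.ncard ≤ P.n k → v ∈ C → ∀ z ∈ P.adv k (P.clus k C v),
      ∀ y ∈ P.clus k C v, P.G.Adj z y → S z = S' z) :
    P.tick x S k v ⊆ P.tick x' S' k v := by
  intro c hc
  obtain ⟨hk, h1, h2, h3, h4, h5, h6⟩ := mem_tick.1 hc
  obtain ⟨g1, g2, g3⟩ := comp_local h (x := x) (x' := x') (c := c) (k := k) (v := v)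
    (fun y hy => hx0 y (hy.mono (by unfold rad; omega))) h2
  have hvC : v ∈ P.comp x c k v := self_comp _ _ _ _
  have hCc : Conn (P.L k) (P.comp x c k v) := Col.conn_cmp _ _ _
  have hCn : (P.comp x c k v).ncard ≤ P.n k := by
    apply (h.sch k k.2).frag (fun w => (P.sd x c k w).1) _ hCc (Set.subset_univ _)
    rw [Set.disjoint_left]
    intro w hw
    have hvW : v ∈ Set.univ \ P.X k (fun w => (P.sd x c k w).1) := ⟨Set.mem_univ _, h2⟩
    exact (Col.cmp_subset hvW hw).2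
  have hnear : ∀ y ∈ P.comp x c k v, Near (P.L k) (P.n k) v y := fun y hy =>
    hCc.near (Set.toFinite _) hCn hvC hy
  have hl := lists_near h (x := x) (x' := x') (S := S) (S' := S') (k := k) hx hnear
    (hS _ hCc hCn hvC)
  refine mem_tick.2 ⟨k.2, h1, g1, h3, ?_, ?_, ?_⟩
  · change P.comp x' c k v ⊆ P.Ur x' c k P.J
    rw [g2]
    exact fun y hy => (ur_near h (hnear y hy) hx).1 (h4 hy)
  · change P.mark x' c k v ∈ P.dec k
    rw [g3]
    exact h5
  · change c ∈ P.law k (P.clus k (P.comp x' c k v) v) (P.adv k (P.clus k (P.comp x' c k v) v))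
        (P.lists x' S' k (P.comp x' c k v) (P.clus k (P.comp x' c k v) v))
        (P.mark x' c k v).2 v
    rw [g2, g3, ← hl]
    exact h6

/-- The adversaries of a cluster near `i.2` have their sets before the seeds of `N i`. -/
private lemma adv_res (h : P.Good δ β r) {i : P.I} (hD : i.2 ∉ P.D i.1) {C : Set V}
    (hC : Conn (P.L i.1) C) (hCn : C.ncard ≤ P.n i.1) (hv : i.2 ∈ C) {z y : V}
    (hz : z ∈ P.adv i.1 (P.clus i.1 C i.2)) (hy : y ∈ P.clus i.1 C i.2) (hzy : P.G.Adj z y)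
    {i' : P.I} (hi' : P.tau r i'.1 i'.2 ≤ P.e z) : i' ∈ P.Env r i := by
  have hv' : i.2 ∈ C \ P.D i.1 := ⟨hv, hD⟩
  have hKsub : P.clus i.1 C i.2 ⊆ C \ P.D i.1 := cmp_subset hv'
  have hK : Conn (P.L i.1) (P.clus i.1 C i.2) := conn_cmp _ _
  have hKn : (P.clus i.1 C i.2).ncard ≤ P.n i.1 :=
    (Set.ncard_le_ncard (fun w hw => (hKsub hw).1) (Set.toFinite _)).trans hCn
  have hKD : Disjoint (P.clus i.1 C i.2) (P.D i.1) := by
    rw [Set.disjoint_left]
    exact fun w hw => (hKsub hw).2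
  obtain ⟨-, c2, -, c4⟩ := h.clu i.1 i.1.2 _ hK hKn hKD
  refine env_tau (t := P.e z) (fun u hu => ?_) hi'
  refine h.fresh i.1 i.1.2 z y hzy (c2 z hz y hy) (c4 z hz y hy hzy) u ?_
  have h1 : Near (P.L i.1) (P.n i.1) i.2 y := hC.near (Set.toFinite _) hCn hv (hKsub hy).1
  exact (h1.symm.trans hu).mono (by unfold rad; omega)

/-- Locality of the third bad event, given that the sets of the adversaries agree. -/
theorem bad3_aux (h : P.Good δ β r) {i : P.I} {x x' : P.Om}
    {S S' : V → ℕ → Finset Z}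
    (hres : ∀ z : V, (∀ i' : P.I, P.tau r i'.1 i'.2 ≤ P.e z → x i' = x' i') → S z = S' z)
    (hN : ∀ i' ∈ P.N i, x i' = x' i') (hE : ∀ i' ∈ P.Env r i, x i' = x' i')
    (hb : P.Bad3 β i x S) : P.Bad3 β i x' S' := by
  obtain ⟨hD, hG, hlt⟩ := hb
  have hx0 : ∀ y, Near (P.L i.1) (P.rad i.1) i.2 y → x (i.1, y) = x' (i.1, y) :=
    fun y hy => hN _ (mem_N hy)
  have hx : ∀ i' : P.I, (i.1 : ℕ) < (i'.1 : ℕ) → Near (P.L i'.1) (P.rad i'.1) i.2 i'.2 →
      x i' = x' i' := fun i' h1 h2 => hE _ (env_up h h1 h2)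
  have hS : ∀ C, Conn (P.L i.1) C → C.ncard ≤ P.n i.1 → i.2 ∈ C →
      ∀ z ∈ P.adv i.1 (P.clus i.1 C i.2), ∀ y ∈ P.clus i.1 C i.2, P.G.Adj z y → S z = S' z :=
    fun C h1 h2 h3 z hz y hy hzy => hres z fun i' hi' =>
      hE i' (adv_res h hD h1 h2 h3 hz hy hzy hi')
  refine ⟨hD, ?_, ?_⟩
  · intro C h1 h2 h3 y hy
    have h4 := hG C h1 h2 h3 y hy
    rw [lists_near h (x := x) (x' := x') (S := S) (S' := S') (k := i.1) hx
      (fun y hy => h1.near (Set.toFinite _) h2 h3 hy) (hS C h1 h2 h3)] at h4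
    exact h4
  · refine lt_of_le_of_lt (card_le_card ?_) hlt
    exact tick_near h (fun y hy => (hx0 y hy).symm) (fun i' h1 h2 => (hx i' h1 h2).symm)
      (fun C h1 h2 h3 z hz y hy hzy => (hS C h1 h2 h3 z hz y hy hzy).symm)

end Data

end Proc

end DSP
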