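import Pool.Agent.Work.MP_0890ba_co.DS.Pr.Proc

/-!
# The process: conditional probabilities, preparations
-/

set_option linter.unusedSectionVars false

namespace DSP

namespace Proc

open Finset Classical BDP BDP.Hub

variable {V Z : Type} [Fintype V] [Nonempty V] [Fintype Z]

namespace Data

/-- A bound for the lower tail of sums of independent events on the level `k`. -/
def Tail (P : Data V Z) (k : ℕ) (q t Cc : ℝ) : Prop :=
  ∀ (Sg : Finset Z) (H : Z → (V → P.Sd k) → Prop) (s : ℝ), (Sg.card : ℝ) ≤ Cc →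
    s * Fintype.card (V → P.Sd k) ≤
      ∑ c ∈ Sg, ((univ.filter fun η : V → P.Sd k => H c η).card : ℝ) →
    ((univ.filter fun om : V → Z → P.Sd k =>
      ((Sg.filter fun c => H c fun v => om v c).card : ℝ) + t < s).card : ℝ) ≤
      q * Fintype.card (V → Z → P.Sd k)

variable {P : Data V Z} {δ : ℕ → ℝ} {β r : ℕ → ℕ}

/-- Events which depend on one coordinate only. -/
lemma marg_gen {ι : Type} [Fintype ι] [DecidableEq ι] {β : ι → Type} [∀ j, Fintype (β j)] (k : ι)
    (Q : β k → Prop) {q : ℝ}
    (hq : ((univ.filter fun om : β k => Q om).card : ℝ) ≤ q * Fintype.card (β k)) :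
    ((univ.filter fun z : (∀ j, β j) => Q (z k)).card : ℝ) ≤ q * Fintype.card (∀ j, β j) := by
  have h1 : (univ.filter fun z : (∀ j, β j) => Q (z k)).card =
      (univ.filter fun om : β k => Q om).card * Fintype.card (∀ j : {j : ι // j ≠ k}, β j) := by
    rw [card_filter, card_filter, sum_mul]
    rw [Fintype.sum_equiv (Equiv.piSplitAt k β) (fun z : (∀ j, β j) => if Q (z k) then 1 else 0)
      (fun p => if Q p.1 then 1 else 0) (fun z => rfl), Fintype.sum_prod_type]
    refine sum_congr rfl fun om _ => ?_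
    show ∑ _y : (∀ j : {j : ι // j ≠ k}, β j), (if Q om then 1 else 0) = _
    rw [sum_const, card_univ, smul_eq_mul, mul_comm]
  have h2 : Fintype.card (∀ j, β j) =
      Fintype.card (β k) * Fintype.card (∀ j : {j : ι // j ≠ k}, β j) := by
    rw [Fintype.card_congr (Equiv.piSplitAt k β), Fintype.card_prod]
  rw [h1, h2]
  push_cast
  rw [← mul_assoc]
  exact mul_le_mul_of_nonneg_right hq (Nat.cast_nonneg _)

/-- The seeds, level by level. -/
def omEquiv (P : Data V Z) : P.Om ≃ ((j : Fin P.J) → V → Z → P.Sd j) where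
  toFun := fun z j v => z (j, v)
  invFun := fun f i => f i.1 i.2
  left_inv := fun _ => rfl
  right_inv := fun _ => rfl

/-- Events which depend on one level only. -/
lemma marg (k : Fin P.J) (Q : (V → Z → P.Sd k) → Prop) {q : ℝ}
    (hq : ((univ.filter fun om : V → Z → P.Sd k => Q om).card : ℝ) ≤
      q * Fintype.card (V → Z → P.Sd k)) :
    ((univ.filter fun z : P.Om => Q fun v => z (k, v)).card : ℝ) ≤ q * Fintype.card P.Om := by
  have h0 := marg_gen (β := fun j : Fin P.J => V → Z → P.Sd j) k Q hq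
  have h1 : (univ.filter fun z : P.Om => Q fun v => z (k, v)).card =
      (univ.filter fun z : ((j : Fin P.J) → V → Z → P.Sd j) => Q (z k)).card := by
    rw [card_filter, card_filter]
    exact Fintype.sum_equiv (omEquiv P) _ _ fun z => rfl
  have h2 : Fintype.card P.Om = Fintype.card ((j : Fin P.J) → V → Z → P.Sd j) :=
    Fintype.card_congr (omEquiv P)
  rw [h1, h2]
  exact h0

/-- Other levels are not changed. -/
lemma pw_ne (i : P.I) (z x : P.Om) {i' : P.I} (h : i'.1 ≠ i.1) :
    (P.N i).piecewise z x i' = x i' := by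
  apply piecewise_eq_of_notMem
  intro h'
  exact h (mem_filter.1 h').2.1

lemma pw_mem (i : P.I) (z x : P.Om) {v : V} (h : Near (P.L i.1) (P.rad i.1) i.2 v) :
    (P.N i).piecewise z x (i.1, v) = z (i.1, v) :=
  piecewise_eq_of_mem _ _ _ (mem_filter.2 ⟨mem_univ _, rfl, h⟩)

/-- The undecided sets of higher levels are not changed. -/
lemma ur_pw (i : P.I) (z x : P.Om) (c : Z) {k : ℕ} (hk : (i.1 : ℕ) ≤ k) (m : ℕ) :
    P.Ur ((P.N i).piecewise z x) c k m = P.Ur x c k m := by
  ext v
  have h1 : ∀ j : Fin P.J, k < (j : ℕ) →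
      P.sd ((P.N i).piecewise z x) c j = P.sd x c j := by
    intro j hj
    funext w
    show (P.N i).piecewise z x (j, w) c = x (j, w) c
    rw [pw_ne]
    intro h
    have : (j : ℕ) = (i.1 : ℕ) := congrArg Fin.val h
    omega
  constructor
  · intro hv j hj hm
    rw [← h1 j hj]
    exact hv j hj hm
  · intro hv j hj hm
    rw [h1 j hj]
    exact hv j hj hm

/-- The seeds near `i`. -/
lemma und_pw (h : P.Good δ β r) (i : P.I) (z x : P.Om) (c : Z) {v : V}
    (hv : Near (P.L i.1) (P.n i.1) i.2 v) :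
    P.Und i.1 (P.sd ((P.N i).piecewise z x) c i.1) v ↔ P.Und i.1 (P.sd z c i.1) v := by
  have h1 : ∀ w, Near (P.L i.1) (P.n i.1 + P.ρ i.1) v w →
      P.sd ((P.N i).piecewise z x) c i.1 w = P.sd z c i.1 w := by
    intro w hw
    show (P.N i).piecewise z x (i.1, w) c = z (i.1, w) c
    rw [pw_mem]
    have h2 := Col.near_trans hv hw
    refine Col.near_mono ?_ h2
    unfold rad
    omega
  have hX := h.sch i.1 i.1.2
  constructor
  · exact fun hu => Far.hit_local hX h1 hu
  · exact fun hu => Far.hit_local hX (fun w hw => (h1 w hw).symm) hu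

/-- Seeds with two parts. -/
lemma card_two {A B : Type} [Fintype A] [Fintype B] (Q : (V → A) → Prop) (l : (V → A) → V)
    (F : Finset B) :
    (univ.filter fun η : V → A × B => Q (fun w => (η w).1) ∧
      (η (l fun w => (η w).1)).2 ∈ F).card * Fintype.card B =
      (univ.filter fun α : V → A => Q α).card * (F.card * Fintype.card (V → B)) := by
  have h1 : (univ.filter fun η : V → A × B => Q (fun w => (η w).1) ∧
      (η (l fun w => (η w).1)).2 ∈ F).card =
      ((univ.filter fun α : V → A => Q α).sigma fun α =>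
        univ.filter fun κ : V → B => κ (l α) ∈ F).card := by
    refine card_bij' (fun η _ => ⟨fun w => (η w).1, fun w => (η w).2⟩)
      (fun q _ => fun w => (q.1 w, q.2 w)) ?_ ?_ ?_ ?_
    · intro η hη
      have h := (mem_filter.1 hη).2
      rw [mem_sigma, mem_filter, mem_filter]
      exact ⟨⟨mem_univ _, h.1⟩, mem_univ _, h.2⟩
    · intro q hq
      rw [mem_sigma, mem_filter, mem_filter] at hq
      rw [mem_filter]
      exact ⟨mem_univ _, hq.1.2, hq.2.2⟩
    · intro η _
      rfl
    · intro q _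
      rfl
  rw [h1, card_sigma, sum_mul, ← smul_eq_mul, ← sum_const]
  refine sum_congr rfl fun α _ => ?_
  rw [Far.card_value]

lemma w_le_W (h : P.Good δ β r) (k : ℕ) : P.w k ≤ P.W k := by
  cases k with
  | zero => exact h.w_zero.le
  | succ k => rw [h.w_succ k]; exact Nat.le_add_left _ _

lemma W_pos (h : P.Good δ β r) (k : ℕ) : 0 < P.W k := (h.w_pos k).trans_le (w_le_W h k)

lemma card_B (k : ℕ) : Fintype.card (P.B k) = P.W k * P.nT (P.n k) := by
  rw [Fintype.card_prod, Fintype.card_fin, Fintype.card_fin]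

/-- The coins which mean: decided. -/
lemma card_dec (h : P.Good δ β r) (k : ℕ) : (P.dec k).card = P.w k * P.nT (P.n k) := by
  have h1 : P.dec k = (univ.filter fun a : Fin (P.W k) => (a : ℕ) < P.w k) ×ˢ
      (univ : Finset (Fin (P.nT (P.n k)))) := by
    ext β
    rw [dec, mem_filter, mem_product, mem_filter]
    simp
  have h2 : (univ.filter fun a : Fin (P.W k) => (a : ℕ) < P.w k).card = P.w k := by
    rw [Fin.card_filter_val_lt]
    exact min_eq_right (w_le_W h k)
  rw [h1, card_product, card_univ, Fintype.card_fin, h2]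

/-- The coins which mean: undecided. -/
lemma card_dec_compl (h : P.Good δ β r) (k : ℕ) :
    ((P.dec k)ᶜ.card : ℝ) * P.W k = (P.W k - P.w k) * Fintype.card (P.B k) := by
  have h1 : ((P.dec k)ᶜ.card : ℝ) = Fintype.card (P.B k) - (P.dec k).card := by
    rw [card_compl, Nat.cast_sub (card_le_univ _)]
  rw [h1, card_dec h, card_B]
  push_cast
  ring

/-- All seeds of one colour on one level. -/
lemma card_seeds (k : ℕ) : Fintype.card (V → P.Sd k) =
    Fintype.card (V → Alph (P.rr k)) * Fintype.card (V → P.B k) := by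
  rw [Fintype.card_fun, Fintype.card_fun, Fintype.card_fun, Fintype.card_prod, mul_pow]

lemma und_iff_hit (k : ℕ) (η : V → P.Sd k) (v : V) : P.Und k η v ↔
    v ∉ P.X k (fun w => (η w).1) ∧
      (η (Col.lead (P.L k) (Set.univ \ P.X k (fun w => (η w).1)) v)).2 ∈ (P.dec k)ᶜ :=
  ⟨fun h => h.2, fun h => ⟨Set.mem_univ _, h⟩⟩

lemma card_B_pos (h : P.Good δ β r) (k : ℕ) : (0 : ℝ) < Fintype.card (P.B k) := by
  rw [card_B]
  exact_mod_cast Nat.mul_pos (W_pos h k) (h.nT_pos _)

lemma card_dec_compl' (h : P.Good δ β r) (k : ℕ) :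
    ((P.dec k)ᶜ.card : ℝ) = (P.W k - P.w k) / P.W k * Fintype.card (P.B k) := by
  have hW : (0 : ℝ) < P.W k := by exact_mod_cast W_pos h k
  rw [div_mul_eq_mul_div, eq_div_iff hW.ne']
  exact card_dec_compl h k

lemma frac_nonneg (h : P.Good δ β r) (k : ℕ) : (0 : ℝ) ≤ (P.W k - P.w k) / P.W k := by
  have h1 : (P.w k : ℝ) ≤ P.W k := by exact_mod_cast w_le_W h k
  apply div_nonneg _ (Nat.cast_nonneg _)
  linarith

/-- The number of seeds with an event for the scheme and an undecided coin. -/
lemma card_und_aux (h : P.Good δ β r) (k : ℕ) (Q : (V → Alph (P.rr k)) → Prop)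
    (l : (V → Alph (P.rr k)) → V) (F : Finset (V → P.Sd k))
    (hF : ∀ η, η ∈ F ↔ Q (fun w => (η w).1) ∧ (η (l fun w => (η w).1)).2 ∈ (P.dec k)ᶜ)
    (F' : Finset (V → Alph (P.rr k))) (hF' : ∀ α, α ∈ F' ↔ Q α) :
    (F.card : ℝ) = (P.W k - P.w k) / P.W k * (F'.card * Fintype.card (V → P.B k)) := by
  have h1 : F.card * Fintype.card (P.B k) =
      F'.card * ((P.dec k)ᶜ.card * Fintype.card (V → P.B k)) := by
    have h0 := card_two (B := P.B k) Q l (P.dec k)ᶜ
    have e1 : F = univ.filter fun η : V → P.Sd k => Q (fun w => (η w).1) ∧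
        (η (l fun w => (η w).1)).2 ∈ (P.dec k)ᶜ := by
      ext η
      rw [hF, mem_filter]
      exact ⟨fun h => ⟨mem_univ _, h⟩, fun h => h.2⟩
    have e2 : F' = univ.filter fun α : V → Alph (P.rr k) => Q α := by
      ext α
      rw [hF', mem_filter]
      exact ⟨fun h => ⟨mem_univ _, h⟩, fun h => h.2⟩
    rw [e1, e2]
    convert h0
  have h2 : (F.card : ℝ) * Fintype.card (P.B k) =
      (F'.card : ℝ) * (((P.dec k)ᶜ.card : ℝ) * Fintype.card (V → P.B k)) := by
    exact_mod_cast h1
  rw [card_dec_compl' h] at h2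
  have h3 := card_B_pos h k
  apply mul_right_cancel₀ h3.ne'
  rw [h2]
  ring

/-- A vertex is undecided with at most the probability of the coin. -/
lemma few_und (h : P.Good δ β r) (k : ℕ) (v : V) :
    ((univ.filter fun η : V → P.Sd k => P.Und k η v).card : ℝ) ≤
      (P.W k - P.w k) / P.W k * Fintype.card (V → P.Sd k) := by
  rw [card_und_aux h k (fun α => v ∉ P.X k α)
    (fun α => Col.lead (P.L k) (Set.univ \ P.X k α) v) _ (fun η => by
      rw [mem_filter, und_iff_hit]
      exact ⟨fun h => h.2, fun h => ⟨mem_univ _, h⟩⟩)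
    (univ.filter fun α => v ∉ P.X k α) (fun α => by
      rw [mem_filter]
      exact ⟨fun h => h.2, fun h => ⟨mem_univ _, h⟩⟩), card_seeds]
  apply mul_le_mul_of_nonneg_left _ (frac_nonneg h k)
  push_cast
  apply mul_le_mul_of_nonneg_right _ (Nat.cast_nonneg _)
  exact_mod_cast card_le_univ _

/-- A connected set is undecided with almost the probability of the coin. -/
lemma many_und (h : P.Good δ β r) {k : ℕ} (hk : k < P.J) {j : ℕ} (hj : j ≤ k) {C : Set V}
    (hC : Conn (P.L j) C) {v : V} (hv : v ∈ C) {ε : ℝ} (hε : (C.ncard : ℝ) * δ k ≤ ε) :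
    ((P.W k - P.w k) / P.W k * (1 - ε)) * Fintype.card (V → P.Sd k) ≤
      ((univ.filter fun η : V → P.Sd k => ∀ y ∈ C, P.Und k η y).card : ℝ) := by
  have hX := h.sch k hk
  -- the set is connected outside `X`
  have h1 : (univ.filter fun η : V → P.Sd k => Disjoint C (P.X k (fun w => (η w).1)) ∧
        (η (Col.lead (P.L k) (Set.univ \ P.X k (fun w => (η w).1)) v)).2 ∈
          (P.dec k)ᶜ) ⊆ univ.filter fun η : V → P.Sd k => ∀ y ∈ C, P.Und k η y := by
    intro η hη
    rw [mem_filter] at hη ⊢
    obtain ⟨-, hd, hη⟩ := hη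
    refine ⟨mem_univ _, fun y hy => (und_iff_hit k η y).2 ⟨Set.disjoint_left.1 hd hy, ?_⟩⟩
    have h2 : Col.cmp (P.L k) (Set.univ \ P.X k (fun w => (η w).1)) y =
        Col.cmp (P.L k) (Set.univ \ P.X k (fun w => (η w).1)) v := by
      apply Col.cmp_congr
      refine (hC y hy v hv).mono ?_
      intro a b hab
      exact ⟨h.Lmono hj hab.1, ⟨Set.mem_univ _, Set.disjoint_left.1 hd hab.2.1⟩,
        ⟨Set.mem_univ _, Set.disjoint_left.1 hd hab.2.2⟩⟩
    have h3 : Col.lead (P.L k) (Set.univ \ P.X k (fun w => (η w).1)) y =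
        Col.lead (P.L k) (Set.univ \ P.X k (fun w => (η w).1)) v := by
      unfold Col.lead
      rw [h2]
    rw [h3]
    exact hη
  -- the number of good seeds for the scheme
  have h4 : (1 - ε) * Fintype.card (V → Alph (P.rr k)) ≤
      ((univ.filter fun α : V → Alph (P.rr k) => Disjoint C (P.X k α)).card : ℝ) := by
    have h5 : (univ.filter fun α : V → Alph (P.rr k) => ¬Disjoint C (P.X k α)) ⊆
        C.toFinset.biUnion fun y => univ.filter fun α : V → Alph (P.rr k) => y ∈ P.X k α := by
      intro α hα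
      have h6 := (mem_filter.1 hα).2
      rw [Set.not_disjoint_iff] at h6
      obtain ⟨y, hy1, hy2⟩ := h6
      exact mem_biUnion.2 ⟨y, Set.mem_toFinset.2 hy1, mem_filter.2 ⟨mem_univ _, hy2⟩⟩
    have h6 : ((univ.filter fun α : V → Alph (P.rr k) => ¬Disjoint C (P.X k α)).card : ℝ) ≤
        ε * Fintype.card (V → Alph (P.rr k)) := by
      have h7 := (card_le_card h5).trans card_biUnion_le
      have h8 : ((univ.filter fun α : V → Alph (P.rr k) => ¬Disjoint C (P.X k α)).card : ℝ) ≤
          ∑ y ∈ C.toFinset,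
            ((univ.filter fun α : V → Alph (P.rr k) => y ∈ P.X k α).card : ℝ) := by
        exact_mod_cast h7
      have h9 : ∀ y ∈ C.toFinset,
          ((univ.filter fun α : V → Alph (P.rr k) => y ∈ P.X k α).card : ℝ) ≤
            δ k * Fintype.card (V → Alph (P.rr k)) := by
        intro y _
        have h10 := hX.prob y
        have h11 : ({ω : V → Alph (P.rr k) | y ∈ P.X k ω} : Set (V → Alph (P.rr k))) =
            ((univ.filter fun α : V → Alph (P.rr k) => y ∈ P.X k α :
              Finset (V → Alph (P.rr k))) : Set (V → Alph (P.rr k))) := by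
          ext ω; simp
        rw [h11, Set.ncard_coe_finset] at h10
        exact h10
      refine h8.trans ((sum_le_sum h9).trans ?_)
      rw [sum_const, nsmul_eq_mul, ← Set.ncard_eq_toFinset_card', ← mul_assoc]
      exact mul_le_mul_of_nonneg_right hε (Nat.cast_nonneg _)
    have h12 := card_filter_add_card_filter_not (s := (univ : Finset (V → Alph (P.rr k))))
      (fun α => Disjoint C (P.X k α))
    rw [card_univ] at h12
    have h13 : ((univ.filter fun α : V → Alph (P.rr k) => Disjoint C (P.X k α)).card : ℝ) +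
        ((univ.filter fun α : V → Alph (P.rr k) => ¬Disjoint C (P.X k α)).card : ℝ) =
          Fintype.card (V → Alph (P.rr k)) := by
      exact_mod_cast h12
    linarith
  refine le_trans ?_ (Nat.cast_le.2 (card_le_card h1))
  rw [card_und_aux h k (fun α => Disjoint C (P.X k α))
    (fun α => Col.lead (P.L k) (Set.univ \ P.X k α) v) _ (fun η => by
      rw [mem_filter]
      exact ⟨fun h => h.2, fun h => ⟨mem_univ _, h⟩⟩)
    (univ.filter fun α => Disjoint C (P.X k α)) (fun α => by
      rw [mem_filter]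
      exact ⟨fun h => h.2, fun h => ⟨mem_univ _, h⟩⟩), card_seeds, mul_assoc]
  apply mul_le_mul_of_nonneg_left _ (frac_nonneg h k)
  push_cast
  rw [← mul_assoc]
  exact mul_le_mul_of_nonneg_right h4 (Nat.cast_nonneg _)

end Data

end Proc

end DSP
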