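import Pool.Agent.Work.MP_0890ba_co.DS.Pr.Proc

/-!
# The random process with nested levels: properness
-/

set_option linter.unusedSectionVars false

namespace DSP

namespace Proc

open Finset Classical BDP BDP.Hub

variable {V Z : Type} [Fintype V] [Nonempty V] [Fintype Z]

namespace Data

variable {P : Data V Z} {δ : ℕ → ℝ} {β r : ℕ → ℕ}

/-- The component of `v` on level `i`. -/
def comp (P : Data V Z) (x : P.Om) (c : Z) (i : Fin P.J) (v : V) : Set V :=
  Col.cmp (P.L i) (Set.univ \ P.X i (fun w => (P.sd x c i w).1)) v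

/-- The mark of the component of `v` on level `i`. -/
noncomputable def mark (P : Data V Z) (x : P.Om) (c : Z) (i : Fin P.J) (v : V) : P.B i :=
  (P.sd x c i (Col.lead (P.L i) (Set.univ \ P.X i (fun w => (P.sd x c i w).1)) v)).2

/-- What it means to get a colour. -/
lemma mem_tick {x : P.Om} {S : V → ℕ → Finset Z} {k : ℕ} {v : V} {c : Z} :
    c ∈ P.tick x S k v ↔ ∃ h : k < P.J, c ∈ P.l v ∧
      v ∉ P.X k (fun w => (P.sd x c ⟨k, h⟩ w).1) ∧ v ∉ P.D k ∧
      P.comp x c ⟨k, h⟩ v ⊆ P.Ur x c k P.J ∧ P.mark x c ⟨k, h⟩ v ∈ P.dec k ∧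
      c ∈ P.law k (P.clus k (P.comp x c ⟨k, h⟩ v) v)
        (P.adv k (P.clus k (P.comp x c ⟨k, h⟩ v) v))
        (P.lists x S k (P.comp x c ⟨k, h⟩ v) (P.clus k (P.comp x c ⟨k, h⟩ v) v))
        (P.mark x c ⟨k, h⟩ v).2 v := by
  unfold tick
  by_cases h : k < P.J
  · rw [dif_pos h, mem_filter]
    constructor
    · rintro ⟨h1, -, h2, h3⟩
      refine ⟨h, h1, h2, ?_⟩
      change P.mark x c ⟨k, h⟩ v ∈ P.tic x S k c (P.comp x c ⟨k, h⟩ v) v at h3
      unfold tic at h3
      by_cases h4 : v ∉ P.D k ∧ P.comp x c ⟨k, h⟩ v ⊆ P.Ur x c k P.J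
      · rw [if_pos h4, mem_filter] at h3
        exact ⟨h4.1, h4.2, h3.1, h3.2⟩
      · rw [if_neg h4] at h3
        exact absurd h3 (notMem_empty _)
    · rintro ⟨_, h1, h2, h3, h4, h5, h6⟩
      refine ⟨h1, Set.mem_univ _, h2, ?_⟩
      change P.mark x c ⟨k, h⟩ v ∈ P.tic x S k c (P.comp x c ⟨k, h⟩ v) v
      unfold tic
      rw [if_pos ⟨h3, h4⟩, mem_filter]
      exact ⟨h5, h6⟩
  · rw [dif_neg h]
    constructor
    · exact fun h' => absurd h' (notMem_empty _)
    · rintro ⟨h', -⟩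
      exact absurd h' h

lemma und_iff {x : P.Om} {c : Z} {i : Fin P.J} {v : V} : P.Und i (P.sd x c i) v ↔
    v ∉ P.X i (fun w => (P.sd x c i w).1) ∧ P.mark x c i v ∉ P.dec i := by
  constructor
  · rintro ⟨-, h1, h2⟩
    exact ⟨h1, by
      change P.mark x c i v ∈ (P.dec i)ᶜ at h2
      rwa [mem_compl] at h2⟩
  · rintro ⟨h1, h2⟩
    refine ⟨Set.mem_univ _, h1, ?_⟩
    change P.mark x c i v ∈ (P.dec i)ᶜ
    rwa [mem_compl]

/-- Adjacent vertices which are not removed are in the same component. -/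
lemma same {x : P.Om} {c : Z} {i : Fin P.J} {u v : V} (huv : (P.L i).Adj u v)
    (hu : u ∉ P.X i (fun w => (P.sd x c i w).1)) (hv : v ∉ P.X i (fun w => (P.sd x c i w).1)) :
    P.comp x c i u = P.comp x c i v ∧ P.mark x c i u = P.mark x c i v := by
  have h1 : (res (P.L i) (Set.univ \ P.X i (fun w => (P.sd x c i w).1))).Adj u v :=
    ⟨huv, ⟨Set.mem_univ _, hu⟩, ⟨Set.mem_univ _, hv⟩⟩
  have h2 := Col.cmp_congr (SimpleGraph.Adj.reachable h1)
  refine ⟨h2, ?_⟩
  unfold mark Col.lead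
  rw [h2]

lemma self_comp (x : P.Om) (c : Z) (i : Fin P.J) (v : V) : v ∈ P.comp x c i v :=
  Col.self_mem_cmp _ _ _

lemma cut_sub (m : ℕ) (T : Finset Z) : cut m T ⊆ T := by
  unfold cut
  by_cases h : m ≤ T.card
  · rw [dif_pos h]
    exact (exists_subset_card_eq h).choose_spec.1
  · rw [dif_neg h]

lemma cut_card {m : ℕ} {T : Finset Z} (h : m ≤ T.card) : (cut m T).card = m := by
  unfold cut
  rw [dif_pos h]
  exact (exists_subset_card_eq h).choose_spec.2

lemma cut_le (m : ℕ) (T : Finset Z) : (cut m T).card ≤ m := by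
  by_cases h : m ≤ T.card
  · exact (cut_card h).le
  · exact (card_le_card (cut_sub m T)).trans (not_le.1 h).le

theorem res_sub {x : P.Om} {S : V → ℕ → Finset Z} (hS : P.IsRes x S)
    (v : V) (k : ℕ) : S v k ⊆ P.tick x S k v ∧ S v k ⊆ P.l v ∧ (S v k).card ≤ P.b k ∧
      (P.b k ≤ (P.tick x S k v).card → (S v k).card = P.b k) := by
  have h1 : S v k ⊆ P.tick x S k v := by
    rw [hS v k]
    exact cut_sub _ _
  refine ⟨h1, fun c hc => ?_, ?_, fun h => ?_⟩
  · obtain ⟨-, h2, -⟩ := mem_tick.1 (h1 hc)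
    exact h2
  · rw [hS v k]
    exact cut_le _ _
  · rw [hS v k]
    exact cut_card h

/-- A colour which `z` got on a level on which `z w` is an edge is not undecided at `w`. -/
theorem shared (_h : P.Good δ β r) {x : P.Om} {S : V → ℕ → Finset Z} {z w : V} {c : Z}
    (i : Fin P.J) (hc : c ∈ P.tick x S i z) (hzw : (P.L i).Adj z w) :
    ¬P.Und i (P.sd x c i) w := by
  obtain ⟨hi, -, h1, -, -, h2, -⟩ := mem_tick.1 hc
  intro hU
  obtain ⟨h3, h4⟩ := und_iff.1 hU
  have h5 := (same hzw h1 h3).2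
  rw [← h5] at h4
  exact h4 h2

theorem level_disj (_h : P.Good δ β r) {x : P.Om} {S : V → ℕ → Finset Z} (hS : P.IsRes x S)
    (v : V) {i j : ℕ} (hij : i ≠ j) : Disjoint (S v i) (S v j) := by
  have key : ∀ i j : ℕ, i < j → Disjoint (S v i) (S v j) := by
    intro i j hij
    rw [Finset.disjoint_left]
    intro c hci hcj
    obtain ⟨hi, -, -, -, h1, -⟩ := mem_tick.1 ((res_sub hS v i).1 hci)
    obtain ⟨hj, -, -, -, -, h2, -⟩ := mem_tick.1 ((res_sub hS v j).1 hcj)
    have h3 := h1 (self_comp x c ⟨i, hi⟩ v) ⟨j, hj⟩ hij hj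
    exact (und_iff.1 h3).2 h2
  rcases lt_or_gt_of_ne hij with h1 | h1
  · exact key i j h1
  · exact (key j i h1).symm

/-- The sets of adjacent vertices are disjoint. -/
theorem proper (h : P.Good δ β r) (he : Function.Injective P.e) {x : P.Om}
    {S : V → ℕ → Finset Z} (hS : P.IsRes x S) {u v : V} (huv : P.G.Adj u v) (i j : ℕ) :
    Disjoint (S u i) (S v j) := by
  have key : ∀ (u v : V), P.G.Adj u v → P.e u < P.e v → ∀ i j : ℕ,
      Disjoint (S u i) (S v j) := by
    intro u v huv hlt i j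
    rw [Finset.disjoint_left]
    intro c hci hcj
    have hti := (res_sub hS u i).1 hci
    have htj := (res_sub hS v j).1 hcj
    obtain ⟨hi, -, hXi, hDi, hCi, hdi, hli⟩ := mem_tick.1 hti
    obtain ⟨hj, -, hXj, hDj, hCj, hdj, hlj⟩ := mem_tick.1 htj
    have hvK : v ∈ P.clus j (P.comp x c ⟨j, hj⟩ v) v := mem_cmp_self _ _
    by_cases hL : (P.L j).Adj u v
    · rcases lt_trichotomy i j with hij | rfl | hij
      · -- level `i` is below level `j`
        have h1 := hCi (self_comp x c ⟨i, hi⟩ u) ⟨j, hj⟩ hij hj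
        exact shared h ⟨j, hj⟩ htj hL.symm h1
      · -- the same level
        obtain ⟨h1, h2⟩ := same (P := P) (x := x) (c := c) (i := ⟨i, hi⟩) hL hXi hXj
        rw [h1, h2] at hli
        have huC : u ∈ P.comp x c ⟨i, hi⟩ v := by
          rw [← h1]
          exact self_comp _ _ _ _
        have h3 : P.clus i (P.comp x c ⟨i, hi⟩ v) u = P.clus i (P.comp x c ⟨i, hi⟩ v) v :=
          (cmp_adj (G := P.L i) (T := P.comp x c ⟨i, hi⟩ v \ P.D i) ⟨self_comp _ _ _ _, hDj⟩
            ⟨huC, hDi⟩ hL.symm)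
        have huK : u ∈ P.clus i (P.comp x c ⟨i, hi⟩ v) v := by
          rw [← h3]
          exact mem_cmp_self _ _
        rw [h3] at hli
        exact Finset.disjoint_left.1 (h.law_disj _ _ _ _ _ u huK v hvK huv) hli hlj
      · -- level `i` is above level `j`
        have h1 := hCj (self_comp x c ⟨j, hj⟩ v) ⟨i, hi⟩ hij hi
        have h2 : (P.L i).Adj u v := h.Lmono hij.le hL
        exact shared h ⟨i, hi⟩ hti h2 h1
    · -- `u` is an adversary
      have h1 := h.law_sub _ _ _ _ _ v hvK hlj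
      unfold lists at h1
      rw [if_pos hvK, mem_sdiff] at h1
      apply h1.2
      rw [mem_biUnion]
      refine ⟨u, ?_, ?_⟩
      · rw [mem_filter]
        refine ⟨?_, huv⟩
        unfold adv
        rw [mem_filter]
        exact ⟨mem_univ _, v, hvK, hlt, huv, hL⟩
      · rw [mem_biUnion]
        exact ⟨i, mem_range.2 hi, hci⟩
  rcases lt_trichotomy (P.e u) (P.e v) with h1 | h1 | h1
  · exact key u v huv h1 i j
  · exact absurd (he h1) huv.ne
  · exact (key v u huv.symm h1 j i).symm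

end Data

end Proc

end DSP
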